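import Pool.Graph.R_pool_sql_team_seeded_843ab51a.V11270.Sub.Cor
import Mathlib

/-!
# Diophantine properties of algebraic numbers from the subspace theorem
-/

set_option autoImplicit false

namespace Pool.Agent.H607.Mix

open Finset Filter Topology
open Pool.Agent.V11270.Sub (sub_inf)

lemma not_inf {b : ℝ} (hb : 1 < b) {t C : ℝ} (ht : 0 < t) {S : Set ℕ} (hS : S.Infinite)
    (h : ∀ m ∈ S, b ^ m * t ≤ C) : False := by
  obtain ⟨M, hM⟩ := ((tendsto_pow_atTop_atTop_of_one_lt hb).atTop_mul_const ht).eventually_gt_atTop C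
    |>.exists_forall_of_atTop
  obtain ⟨m, hm, hm'⟩ := hS.exists_gt M
  exact absurd (h m hm) (not_le.2 (hM m hm'.le))

lemma inf_ge {S : Set ℕ} (hS : S.Infinite) (M : ℕ) : {m | m ∈ S ∧ M ≤ m}.Infinite := by
  have h1 : {m | m ∈ S ∧ M ≤ m} = S \ {m | m < M} := by
    ext m
    simp [not_lt]
  rw [h1]
  exact hS.sdiff (Set.finite_lt_nat M)

/-- Ridout's theorem with a multiplier -/
theorem ridout_mult {b : ℕ} (hb : 2 ≤ b) {ξ : ℝ} (hξ : IsAlgebraic ℚ ξ) (hirr : Irrational ξ)
    {ε : ℝ} (hε : 0 < ε) (c : ℝ) : ∃ M : ℕ, ∀ m : ℕ, M ≤ m → ∀ g : ℤ, 1 ≤ g →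
      Real.log g ≤ c * m → ∀ z : ℤ,
      Real.exp (-(ε * m)) ≤ g * |g * (b : ℝ) ^ m * ξ - z| := by
  by_contra hcon
  push Not at hcon
  have hb1 : (1 : ℝ) < b := by exact_mod_cast hb
  have hb0 : (0 : ℝ) < b := by linarith
  have hlb : 0 < Real.log b := Real.log_pos hb1
  set S : Set ℕ := {m : ℕ | ∃ g : ℤ, 1 ≤ g ∧ Real.log g ≤ c * m ∧ ∃ z : ℤ,
    (g : ℝ) * |g * (b : ℝ) ^ m * ξ - z| < Real.exp (-(ε * m))} with hSdef
  have hS : S.Infinite := by
    rw [Set.infinite_iff_exists_gt]
    intro M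
    obtain ⟨m, hm, g, hg, hgc, z, hz⟩ := hcon (M + 1)
    exact ⟨m, ⟨g, hg, hgc, z, hz⟩, by omega⟩
  choose! g hg1 hgc z hz using fun (m : ℕ) (hm : m ∈ S) => hm
  have hgR : ∀ m ∈ S, (1 : ℝ) ≤ g m := fun m hm => by exact_mod_cast hg1 m hm
  have hirrne : ∀ r : ℝ, (∃ q : ℚ, (q : ℝ) = r) → ξ + r ≠ 0 := by
    rintro r ⟨q, rfl⟩ h
    apply hirr
    refine ⟨-q, ?_⟩
    push_cast
    linarith
  obtain ⟨y, hy, hyinf⟩ := sub_inf (n := 2) (by norm_num) (!![1, 0; ξ, -1] : Matrix (Fin 2) (Fin 2) ℝ)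
    (by
      intro i j
      fin_cases i <;> fin_cases j
      · simpa using isAlgebraic_one
      · simpa using isAlgebraic_zero
      · simpa using hξ
      · simpa using isAlgebraic_one.neg)
    (by simp [Matrix.det_fin_two]) (ι := Unit) (fun _ => ![(b : ℤ), 1])
    (by
      intro v l
      fin_cases l
      · simp
        omega
      · simp)
    (fun m _ => m) (|c| + ε + Real.log b) ε hε
    (fun m => ![(g m : ℝ) * (b : ℝ) ^ m, Real.exp (-(ε * m)) / g m])
    (fun m => ![g m * (b : ℤ) ^ m, z m]) S hS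
    (by
      intro m hm h0
      have h1 := congrFun h0 0
      simp only [Matrix.cons_val_zero, Pi.zero_apply, mul_eq_zero, pow_eq_zero_iff'] at h1
      rcases h1 with h1 | h1
      · have := hg1 m hm
        omega
      · have : (b : ℤ) ≠ 0 := by exact_mod_cast (by omega : b ≠ 0)
        exact this h1.1)
    (by
      intro m hm l
      fin_cases l
      · simp
      · simp)
    (by
      intro m hm l
      fin_cases l
      · have h2 := hgR m hm
        simp [Fin.sum_univ_two]
        rw [abs_of_nonneg (by linarith)]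
      · have h1 := (hz m hm).le
        have h2 := hgR m hm
        simp only [Fin.sum_univ_two, Matrix.of_apply, Matrix.cons_val', Matrix.cons_val_zero,
          Matrix.cons_val_one, Matrix.cons_val_fin_one, Fin.mk_one, Fin.isValue]
        rw [le_div_iff₀ (by linarith)]
        have e1 : ξ * ((g m * (b : ℤ) ^ m : ℤ) : ℝ) + -1 * (z m : ℝ) = g m * (b : ℝ) ^ m * ξ - z m := by
          push_cast
          ring
        rw [e1, mul_comm]
        exact h1)
    (by
      intro m hm l
      have h2 := hgR m hm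
      fin_cases l
      · simp only [Fin.zero_eta, Matrix.cons_val_zero]
        positivity
      · simp only [Fin.mk_one, Matrix.cons_val_one, Matrix.cons_val_fin_one]
        positivity)
    (by
      intro m hm l
      have h2 := hgR m hm
      have h3 := hgc m hm
      have h4 : 0 ≤ Real.log (g m) := Real.log_nonneg h2
      have h5 : (0 : ℝ) ≤ m := Nat.cast_nonneg m
      have h6 : c * m ≤ |c| * m := mul_le_mul_of_nonneg_right (le_abs_self c) h5
      fin_cases l
      · simp only [Fin.zero_eta, Matrix.cons_val_zero]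
        rw [Real.log_mul (by linarith) (by positivity), Real.log_pow, abs_of_nonneg (by positivity)]
        nlinarith [mul_nonneg hε.le h5]
      · simp only [Fin.mk_one, Matrix.cons_val_one, Matrix.cons_val_fin_one]
        rw [Real.log_div (Real.exp_pos _).ne' (by linarith), Real.log_exp, abs_le]
        constructor <;> nlinarith [mul_nonneg hε.le h5, mul_nonneg hlb.le h5])
    (by
      intro m hm
      have h5 : (0 : ℝ) ≤ m := Nat.cast_nonneg m
      simp only [Fin.prod_univ_two, Finset.univ_unique, Finset.prod_singleton, Matrix.cons_val_zero,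
        Matrix.cons_val_one, Matrix.cons_val_fin_one, Int.cast_one, one_pow, mul_one, Int.cast_natCast]
      rw [abs_of_pos (by positivity), Real.log_pow]
      nlinarith [mul_nonneg hε.le h5, mul_nonneg (abs_nonneg c) h5])
    (by
      intro m hm
      have h2 := hgR m hm
      simp only [Fin.prod_univ_two, Finset.univ_unique, Finset.prod_singleton, Matrix.cons_val_zero,
        Matrix.cons_val_one, Matrix.cons_val_fin_one, Int.cast_one, one_pow, mul_one, Int.cast_natCast,
        Fin.sum_univ_two]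
      rw [abs_of_pos (by positivity), Real.log_pow, Real.log_mul (by linarith) (by positivity),
        Real.log_pow, Real.log_div (Real.exp_pos _).ne' (by linarith), Real.log_exp]
      linarith)
  simp only [Fin.sum_univ_two, Matrix.cons_val_zero, Matrix.cons_val_one, Matrix.cons_val_fin_one] at hyinf
  by_cases hy1 : y 1 = 0
  · obtain ⟨m, hm, hm2⟩ := hyinf.nonempty
    rw [hy1, zero_mul, add_zero] at hm2
    have hb0' : (b : ℤ) ^ m ≠ 0 := by positivity
    have h3 := hg1 m hm
    have h4 : g m * (b : ℤ) ^ m ≠ 0 := mul_ne_zero (by omega) hb0'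
    have h5 : y 0 = 0 := (mul_eq_zero.1 hm2).resolve_right h4
    apply hy
    ext i
    fin_cases i
    · exact h5
    · exact hy1
  · have hy1R : (y 1 : ℝ) ≠ 0 := by exact_mod_cast hy1
    have hne := hirrne ((y 0 : ℝ) / y 1) ⟨(y 0 : ℚ) / y 1, by push_cast; rfl⟩
    refine not_inf hb1 (abs_pos.2 hne) hyinf (C := 1) ?_
    rintro m ⟨hm, hm2⟩
    have h1 := hz m hm
    have h2 := hgR m hm
    have h3 : (y 0 : ℝ) * (g m * (b : ℝ) ^ m) + y 1 * z m = 0 := by exact_mod_cast hm2
    have h4 : (g m : ℝ) * (b : ℝ) ^ m * ξ - z m = (g m * (b : ℝ) ^ m) * (ξ + (y 0 : ℝ) / y 1) := by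
      have : (z m : ℝ) = - ((y 0 : ℝ) / y 1) * (g m * (b : ℝ) ^ m) := by
        field_simp
        linarith
      rw [this]
      ring
    rw [h4, abs_mul, abs_of_pos (by positivity)] at h1
    have h5 : Real.exp (-(ε * m)) ≤ 1 := by
      rw [Real.exp_le_one_iff]
      have : (0 : ℝ) ≤ m := Nat.cast_nonneg m
      nlinarith
    have h6 : (b : ℝ) ^ m * |ξ + (y 0 : ℝ) / y 1| ≤
        g m * ((g m * (b : ℝ) ^ m) * |ξ + (y 0 : ℝ) / y 1|) := by
      have h7 : 0 ≤ (b : ℝ) ^ m * |ξ + (y 0 : ℝ) / y 1| := by positivity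
      have h8 : (1 : ℝ) ≤ g m * g m := by nlinarith
      nlinarith
    linarith

lemma dist_pos {ξ : ℝ} (hirr : Irrational ξ) (r s : ℚ) :
    ∃ t : ℝ, 0 < t ∧ ∀ D : ℤ, 2 ≤ D → t ≤ |(D : ℝ) * (ξ + r) - (ξ - s)| := by
  have hne : ∀ D : ℤ, 2 ≤ D → (D : ℝ) * (ξ + r) - (ξ - s) ≠ 0 := by
    intro D hD h
    have h1 : ((D : ℝ) - 1) ≠ 0 := by
      have : (2 : ℝ) ≤ D := by exact_mod_cast hD
      linarith
    apply hirr
    refine ⟨-(D * r + s) / (D - 1), ?_⟩
    push_cast
    rw [div_eq_iff h1]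
    linarith
  have hα : 0 < |ξ + r| := by
    apply abs_pos.2
    intro h
    apply hirr
    exact ⟨-r, by push_cast; linarith⟩
  obtain ⟨D₀, hD₀⟩ := exists_nat_gt ((|ξ - s| + 1) / |ξ + r|)
  have hfin : (Finset.Icc (2 : ℤ) (D₀ + 2)).Nonempty := ⟨2, by rw [Finset.mem_Icc]; omega⟩
  obtain ⟨D₁, hD₁, hmin⟩ := Finset.exists_min_image (Finset.Icc (2 : ℤ) (D₀ + 2))
    (fun D : ℤ => |(D : ℝ) * (ξ + r) - (ξ - s)|) hfin
  rw [Finset.mem_Icc] at hD₁
  refine ⟨min 1 |(D₁ : ℝ) * (ξ + r) - (ξ - s)|, lt_min one_pos (abs_pos.2 (hne D₁ hD₁.1)), ?_⟩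
  intro D hD
  rcases le_or_gt D (D₀ + 2) with h | h
  · exact (min_le_right _ _).trans (hmin D (by rw [Finset.mem_Icc]; exact ⟨hD, h⟩))
  · refine (min_le_left _ _).trans ?_
    rw [div_lt_iff₀ hα] at hD₀
    have h1 : (D₀ : ℝ) ≤ D := by
      have : (D₀ : ℤ) ≤ D := by omega
      exact_mod_cast this
    have h2 : (D : ℝ) * |ξ + r| - |ξ - s| ≤ |(D : ℝ) * (ξ + r) - (ξ - s)| := by
      have h3 := abs_sub_abs_le_abs_sub ((D : ℝ) * (ξ + r)) (ξ - s)
      rw [abs_mul, abs_of_nonneg (by have : (2 : ℝ) ≤ D := by exact_mod_cast hD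
                                     linarith : (0 : ℝ) ≤ D)] at h3
      exact h3
    nlinarith

/-- three terms: no good approximations to `(D - 1) ξ` with two large powers of `b` -/
theorem near {b : ℕ} (hb : 2 ≤ b) {ξ : ℝ} (hξ : IsAlgebraic ℚ ξ) (hirr : Irrational ξ)
    {ε : ℝ} (hε : 0 < ε) (c : ℝ) : ∃ M : ℕ, ∀ m : ℕ, M ≤ m → ∀ (g R : ℤ) (d : ℕ), 1 ≤ g → 1 ≤ R →
      2 ≤ (b : ℤ) ^ d * R → Real.log g ≤ c * m → Real.log R ≤ c * m → (d : ℝ) ≤ c * m → ∀ z : ℤ,
      Real.exp (-(ε * m)) ≤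
        (g : ℝ) ^ 2 * R * |g * ((b : ℝ) ^ d * R - 1) * (b : ℝ) ^ m * ξ - z| := by
  by_contra hcon
  push Not at hcon
  have hb1 : (1 : ℝ) < b := by exact_mod_cast hb
  have hb0 : (0 : ℝ) < b := by linarith
  have hlb : 0 < Real.log b := Real.log_pos hb1
  set S : Set ℕ := {m : ℕ | ∃ (g R : ℤ) (d : ℕ), 1 ≤ g ∧ 1 ≤ R ∧ 2 ≤ (b : ℤ) ^ d * R ∧
    Real.log g ≤ c * m ∧ Real.log R ≤ c * m ∧ (d : ℝ) ≤ c * m ∧ ∃ z : ℤ,
    (g : ℝ) ^ 2 * R * |g * ((b : ℝ) ^ d * R - 1) * (b : ℝ) ^ m * ξ - z| < Real.exp (-(ε * m))} with hSdef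
  have hS : S.Infinite := by
    rw [Set.infinite_iff_exists_gt]
    intro M
    obtain ⟨m, hm, g, R, d, h1, h2, h3, h4, h5, h6, z, hz⟩ := hcon (M + 1)
    exact ⟨m, ⟨g, R, d, h1, h2, h3, h4, h5, h6, z, hz⟩, by omega⟩
  choose! g R d hg1 hR1 hD2 hgc hRc hdc z hz using fun (m : ℕ) (hm : m ∈ S) => hm
  have hgR : ∀ m ∈ S, (1 : ℝ) ≤ g m := fun m hm => by exact_mod_cast hg1 m hm
  have hRR : ∀ m ∈ S, (1 : ℝ) ≤ R m := fun m hm => by exact_mod_cast hR1 m hm
  have hbig : ∀ m ∈ S, (1 : ℝ) ≤ (g m : ℝ) ^ 2 * R m := fun m hm => by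
    have h1 := hgR m hm
    have h2 := hRR m hm
    have h3 : (1 : ℝ) ≤ (g m : ℝ) ^ 2 := one_le_pow₀ h1
    nlinarith
  obtain ⟨y, hy, hyinf⟩ := sub_inf (n := 3) (by norm_num)
    (!![1, 0, 0; 0, 1, 0; ξ, -ξ, -1] : Matrix (Fin 3) (Fin 3) ℝ)
    (by
      intro i j
      fin_cases i <;> fin_cases j
      · simpa using isAlgebraic_one
      · simpa using isAlgebraic_zero
      · simpa using isAlgebraic_zero
      · simpa using isAlgebraic_zero
      · simpa using isAlgebraic_one
      · simpa using isAlgebraic_zero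
      · simpa using hξ
      · simpa using hξ.neg
      · simpa using isAlgebraic_one.neg)
    (by simp [Matrix.det_fin_three]) (ι := Fin 2) (![![(b : ℤ), b, 1], ![(b : ℤ), 1, 1]])
    (by
      have hbz : (b : ℤ) ≠ 0 := by exact_mod_cast (by omega : b ≠ 0)
      intro v l
      fin_cases v <;> fin_cases l <;> simp <;> omega)
    (fun m => ![m, d m]) (4 * |c| + ε + (2 + |c|) * Real.log b) ε hε
    (fun m => ![(g m : ℝ) * R m * (b : ℝ) ^ (m + d m), (g m : ℝ) * (b : ℝ) ^ m,
      Real.exp (-(ε * m)) / ((g m : ℝ) ^ 2 * R m)])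
    (fun m => ![g m * R m * (b : ℤ) ^ (m + d m), g m * (b : ℤ) ^ m, z m]) S hS
    (by
      intro m hm h0
      have h1 := congrFun h0 1
      simp only [Matrix.cons_val_one, Matrix.cons_val_zero, Pi.zero_apply, mul_eq_zero,
        pow_eq_zero_iff'] at h1
      rcases h1 with h1 | h1
      · have := hg1 m hm
        omega
      · have : (b : ℤ) ≠ 0 := by exact_mod_cast (by omega : b ≠ 0)
        exact this h1.1)
    (by
      intro m hm l
      fin_cases l
      · simp only [Fin.prod_univ_two, Matrix.cons_val_zero, Matrix.cons_val_one, Fin.zero_eta]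
        rw [← pow_add]
        exact Dvd.intro_left _ rfl
      · simp [Fin.prod_univ_two]
      · simp [Fin.prod_univ_two])
    (by
      intro m hm l
      have h2 := hgR m hm
      have h3 := hRR m hm
      fin_cases l
      · simp only [Fin.sum_univ_three, Matrix.of_apply, Matrix.cons_val', Matrix.cons_val_zero,
          Fin.zero_eta, Matrix.cons_val_fin_one, Matrix.cons_val_one, Matrix.cons_val]
        push_cast
        simp only [one_mul, zero_mul, add_zero, zero_add]
        rw [abs_of_nonneg (by positivity)]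
      · simp only [Fin.sum_univ_three, Matrix.of_apply, Matrix.cons_val', Matrix.cons_val_zero,
          Fin.mk_one, Matrix.cons_val_fin_one, Matrix.cons_val_one, Matrix.cons_val]
        push_cast
        simp only [one_mul, zero_mul, add_zero, zero_add]
        rw [abs_of_nonneg (by positivity)]
      · have h1 := (hz m hm).le
        have h4 := hbig m hm
        simp only [Fin.sum_univ_three, Matrix.of_apply, Matrix.cons_val', Matrix.cons_val_zero,
          Fin.reduceFinMk, Matrix.cons_val_fin_one, Matrix.cons_val_one, Matrix.cons_val]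
        rw [le_div_iff₀ (by linarith)]
        have e1 : ξ * ((g m * R m * (b : ℤ) ^ (m + d m) : ℤ) : ℝ) + -ξ * ((g m * (b : ℤ) ^ m : ℤ) : ℝ) +
            -1 * (z m : ℝ) = g m * ((b : ℝ) ^ (d m) * R m - 1) * (b : ℝ) ^ m * ξ - z m := by
          push_cast
          rw [pow_add]
          ring
        rw [e1, mul_comm]
        exact h1)
    (by
      intro m hm l
      have h2 := hgR m hm
      have h3 := hRR m hm
      fin_cases l
      · simp only [Fin.zero_eta, Matrix.cons_val_zero]
        positivity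
      · simp only [Fin.mk_one, Matrix.cons_val_one, Matrix.cons_val_zero]
        positivity
      · simp only [Fin.reduceFinMk, Matrix.cons_val]
        positivity)
    (by
      intro m hm l
      have h2 := hgR m hm
      have h3 := hRR m hm
      have h4 := hgc m hm
      have h5 := hRc m hm
      have h6 := hdc m hm
      have h7 : 0 ≤ Real.log (g m) := Real.log_nonneg h2
      have h8 : 0 ≤ Real.log (R m) := Real.log_nonneg h3
      have h9 : (0 : ℝ) ≤ m := Nat.cast_nonneg m
      have h10 : (0 : ℝ) ≤ d m := Nat.cast_nonneg _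
      have h11 : c * m ≤ |c| * m := mul_le_mul_of_nonneg_right (le_abs_self c) h9
      have h12 : (d m : ℝ) * Real.log b ≤ |c| * m * Real.log b :=
        mul_le_mul_of_nonneg_right (by linarith) hlb.le
      have h13 := mul_nonneg hε.le h9
      have h14 := mul_nonneg hlb.le h9
      have h15 := mul_nonneg h10 hlb.le
      have h16 := mul_nonneg (abs_nonneg c) h9
      have h17 := mul_nonneg h16 hlb.le
      fin_cases l
      · simp only [Fin.zero_eta, Matrix.cons_val_zero]
        rw [Real.log_mul (by positivity) (by positivity), Real.log_mul (by linarith) (by linarith),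
          Real.log_pow, abs_of_nonneg (by positivity)]
        push_cast
        linarith
      · simp only [Fin.mk_one, Matrix.cons_val_one, Matrix.cons_val_zero]
        rw [Real.log_mul (by linarith) (by positivity), Real.log_pow, abs_of_nonneg (by positivity)]
        linarith
      · simp only [Fin.reduceFinMk, Matrix.cons_val]
        rw [Real.log_div (Real.exp_pos _).ne' (by positivity), Real.log_exp,
          Real.log_mul (by positivity) (by linarith), Real.log_pow, abs_le]
        push_cast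
        constructor <;> linarith)
    (by
      intro m hm
      have h6 := hdc m hm
      have h9 : (0 : ℝ) ≤ m := Nat.cast_nonneg m
      have h11 : c * m ≤ |c| * m := mul_le_mul_of_nonneg_right (le_abs_self c) h9
      have h12 : (d m : ℝ) * Real.log b ≤ |c| * m * Real.log b :=
        mul_le_mul_of_nonneg_right (by linarith) hlb.le
      have h13 := mul_nonneg hε.le h9
      have h16 := mul_nonneg (abs_nonneg c) h9
      simp only [Fin.prod_univ_three, Fin.prod_univ_two, Matrix.cons_val_zero,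
        Matrix.cons_val_one, Matrix.cons_val, Int.cast_one, one_pow, mul_one, Int.cast_natCast]
      rw [abs_of_pos (by positivity), Real.log_mul (by positivity) (by positivity),
        Real.log_mul (by positivity) (by positivity), Real.log_pow, Real.log_pow]
      linarith)
    (by
      intro m hm
      have h2 := hgR m hm
      have h3 := hRR m hm
      simp only [Fin.prod_univ_three, Fin.prod_univ_two, Matrix.cons_val_zero,
        Matrix.cons_val_one, Matrix.cons_val, Int.cast_one, one_pow, mul_one, Int.cast_natCast,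
        Fin.sum_univ_three]
      have e1 : Real.log (g m * R m * (b : ℝ) ^ (m + d m)) =
          Real.log (g m) + Real.log (R m) + (m + d m) * Real.log b := by
        rw [Real.log_mul (by positivity) (by positivity), Real.log_mul (by linarith) (by linarith),
          Real.log_pow]
        push_cast
        ring
      have e2 : Real.log (g m * (b : ℝ) ^ m) = Real.log (g m) + m * Real.log b := by
        rw [Real.log_mul (by linarith) (by positivity), Real.log_pow]
      have e3 : Real.log (Real.exp (-(ε * m)) / ((g m : ℝ) ^ 2 * R m)) =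
          -(ε * m) - (2 * Real.log (g m) + Real.log (R m)) := by
        rw [Real.log_div (Real.exp_pos _).ne' (by positivity), Real.log_exp,
          Real.log_mul (by positivity) (by linarith), Real.log_pow]
        push_cast
        ring
      have e4 : Real.log |(b : ℝ) ^ m * (b : ℝ) ^ d m * (b : ℝ) ^ m| = (2 * m + d m) * Real.log b := by
        rw [abs_of_pos (by positivity), Real.log_mul (by positivity) (by positivity),
          Real.log_mul (by positivity) (by positivity), Real.log_pow, Real.log_pow]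
        ring
      rw [e1, e2, e3, e4]
      apply le_of_eq
      ring)
  simp only [Fin.sum_univ_three, Matrix.cons_val_zero, Matrix.cons_val_one, Matrix.cons_val] at hyinf
  have hD : ∀ m ∈ S, (g m * R m * (b : ℤ) ^ (m + d m)) = ((b : ℤ) ^ d m * R m) * (g m * (b : ℤ) ^ m) := by
    intro m _
    rw [pow_add]
    ring
  have hx1 : ∀ m ∈ S, g m * (b : ℤ) ^ m ≠ 0 := by
    intro m hm
    have hb0' : (b : ℤ) ^ m ≠ 0 := by positivity
    have h3 := hg1 m hm
    exact mul_ne_zero (by omega) hb0'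
  by_cases hy2 : y 2 = 0
  · -- the ratio is constant
    have hrat : ∀ m, m ∈ S → y 0 * (g m * R m * (b : ℤ) ^ (m + d m)) + y 1 * (g m * (b : ℤ) ^ m) +
        y 2 * z m = 0 → y 0 * ((b : ℤ) ^ d m * R m) + y 1 = 0 := by
      intro m hm h
      rw [hy2, zero_mul, add_zero, hD m hm] at h
      have h1 : (y 0 * ((b : ℤ) ^ d m * R m) + y 1) * (g m * (b : ℤ) ^ m) = 0 := by
        linear_combination h
      exact (mul_eq_zero.1 h1).resolve_right (hx1 m hm)
    have hy0 : y 0 ≠ 0 := by
      intro h0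
      obtain ⟨m, hm, hm2⟩ := hyinf.nonempty
      have h1 := hrat m hm hm2
      rw [h0, zero_mul, zero_add] at h1
      apply hy
      ext i
      fin_cases i
      · exact h0
      · exact h1
      · exact hy2
    obtain ⟨m₀, hm₀, hm₀2⟩ := hyinf.nonempty
    set D₀ : ℤ := (b : ℤ) ^ d m₀ * R m₀ with hD₀
    have hconst : ∀ m, m ∈ S → y 0 * (g m * R m * (b : ℤ) ^ (m + d m)) + y 1 * (g m * (b : ℤ) ^ m) +
        y 2 * z m = 0 → (b : ℤ) ^ d m * R m = D₀ := by
      intro m hm h
      have h1 := hrat m hm h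
      have h2 := hrat m₀ hm₀ hm₀2
      have h3 : y 0 * ((b : ℤ) ^ d m * R m - D₀) = 0 := by linear_combination h1 - h2
      have h4 := (mul_eq_zero.1 h3).resolve_left hy0
      linarith
    have hD₀2 : 2 ≤ D₀ := hD2 m₀ hm₀
    have hD₀R : (1 : ℝ) ≤ ((D₀ - 1 : ℤ) : ℝ) := by exact_mod_cast (by omega : 1 ≤ D₀ - 1)
    obtain ⟨M, hM⟩ := ridout_mult hb hξ hirr (ε := ε / 2) (by positivity) (|c| + Real.log ((D₀ - 1 : ℤ) : ℝ))
    refine not_inf (b := Real.exp (ε / 2)) (by rw [Real.one_lt_exp_iff]; positivity) one_pos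
      (inf_ge hyinf (max M 1)) (C := ((D₀ - 1 : ℤ) : ℝ)) ?_
    rintro m ⟨⟨hm, hm2⟩, hmM⟩
    have h1 := hconst m hm hm2
    have h2 := hgR m hm
    have h3 := hRR m hm
    have h4 := hz m hm
    have hm1 : (1 : ℝ) ≤ m := by exact_mod_cast (le_max_right _ _).trans hmM
    have h5 := hM m ((le_max_left _ _).trans hmM) (g m * (D₀ - 1))
      (by have := hg1 m hm; nlinarith) (by
        push_cast
        push_cast at hD₀R
        rw [Real.log_mul (by linarith) (by linarith)]
        have h6 := hgc m hm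
        have h7 : c * m ≤ |c| * m := mul_le_mul_of_nonneg_right (le_abs_self c) (by linarith)
        have h8 : 0 ≤ Real.log ((D₀ : ℝ) - 1) := Real.log_nonneg hD₀R
        nlinarith) (z m)
    have h6 : ((g m * (D₀ - 1) : ℤ) : ℝ) * (b : ℝ) ^ m * ξ - z m =
        g m * ((b : ℝ) ^ (d m) * R m - 1) * (b : ℝ) ^ m * ξ - z m := by
      have h7 : (b : ℝ) ^ (d m) * R m = D₀ := by exact_mod_cast h1
      rw [h7]
      push_cast
      ring
    rw [h6] at h5
    set T := |(g m : ℝ) * ((b : ℝ) ^ (d m) * R m - 1) * (b : ℝ) ^ m * ξ - z m| with hT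
    have hT0 : 0 ≤ T := abs_nonneg _
    have h7 : (g m : ℝ) * T ≤ (g m : ℝ) ^ 2 * R m * T := by
      apply mul_le_mul_of_nonneg_right _ hT0
      nlinarith
    have h8 : Real.exp (-(ε / 2 * m)) ≤ ((D₀ - 1 : ℤ) : ℝ) * Real.exp (-(ε * m)) := by
      calc Real.exp (-(ε / 2 * m)) ≤ ((g m * (D₀ - 1) : ℤ) : ℝ) * T := h5
        _ = ((D₀ - 1 : ℤ) : ℝ) * (g m * T) := by push_cast; ring
        _ ≤ ((D₀ - 1 : ℤ) : ℝ) * Real.exp (-(ε * m)) := by
            apply mul_le_mul_of_nonneg_left _ (by linarith)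
            linarith
    rw [mul_one, ← Real.exp_nat_mul]
    have h9 : Real.exp (-(ε / 2 * m)) = Real.exp (m * (ε / 2)) * Real.exp (-(ε * m)) := by
      rw [← Real.exp_add]
      congr 1
      ring
    rw [h9] at h8
    exact le_of_mul_le_mul_right h8 (Real.exp_pos _)
  · have hy2R : (y 2 : ℝ) ≠ 0 := by exact_mod_cast hy2
    obtain ⟨t, ht, htD⟩ := dist_pos hirr ((y 0 : ℚ) / y 2) ((y 1 : ℚ) / y 2)
    refine not_inf hb1 ht hyinf (C := 1) ?_
    rintro m ⟨hm, hm2⟩
    have h1 := hz m hm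
    have h2 := hgR m hm
    have h3 := hRR m hm
    have h4 := hbig m hm
    have h5 : (y 0 : ℝ) * (g m * R m * (b : ℝ) ^ (m + d m)) + y 1 * (g m * (b : ℝ) ^ m) +
        y 2 * z m = 0 := by exact_mod_cast hm2
    have h6 : (g m : ℝ) * ((b : ℝ) ^ (d m) * R m - 1) * (b : ℝ) ^ m * ξ - z m =
        (g m * (b : ℝ) ^ m) * ((((b : ℤ) ^ d m * R m : ℤ) : ℝ) * (ξ + ((y 0 : ℚ) / y 2 : ℚ)) -
          (ξ - ((y 1 : ℚ) / y 2 : ℚ))) := by
      have : (z m : ℝ) = - ((y 0 : ℝ) / y 2) * (g m * R m * (b : ℝ) ^ (m + d m)) -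
          ((y 1 : ℝ) / y 2) * (g m * (b : ℝ) ^ m) := by
        field_simp
        linarith
      rw [this, pow_add]
      push_cast
      ring
    have h7 := htD ((b : ℤ) ^ d m * R m) (hD2 m hm)
    rw [h6, abs_mul, abs_of_pos (by positivity)] at h1
    have h8 : Real.exp (-(ε * m)) ≤ 1 := by
      rw [Real.exp_le_one_iff]
      have : (0 : ℝ) ≤ m := Nat.cast_nonneg m
      nlinarith
    set T := |(((b : ℤ) ^ d m * R m : ℤ) : ℝ) * (ξ + ((y 0 : ℚ) / y 2 : ℚ)) -
          (ξ - ((y 1 : ℚ) / y 2 : ℚ))| with hT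
    have hT0 : 0 ≤ T := abs_nonneg _
    have h9 : (b : ℝ) ^ m * t ≤ (g m : ℝ) ^ 2 * R m * (g m * (b : ℝ) ^ m * T) := by
      calc (b : ℝ) ^ m * t ≤ (b : ℝ) ^ m * T := by gcongr
        _ = 1 * (1 * ((b : ℝ) ^ m * T)) := by ring
        _ ≤ (g m : ℝ) ^ 2 * R m * (g m * ((b : ℝ) ^ m * T)) := by gcongr
        _ = _ := by ring
    linarith

end Pool.Agent.H607.Mix
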