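import Pool.Agent.H607.Mix.Corr
import Pool.Agent.H607.Mix.Dio
import Mathlib

/-!
# The correlations for algebraic numbers
-/

set_option autoImplicit false

namespace Pool.Agent.H607.Mix

open Finset Filter Topology MeasureTheory
open Pool.Agent.W206.ND (ee)
open Pool.Agent.H607

variable (p : Par)

lemma size_tendsto : Tendsto Nat.size atTop atTop := by
  apply tendsto_atTop_atTop.2
  intro k
  refine ⟨2 ^ k, fun n hn => ?_⟩
  exact (Nat.lt_size.2 hn).le

lemma err_small (A : ℝ) : ∀ᶠ n : ℕ in atTop, A * ((err p n : ℝ) + 1) ≤ n := by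
  have h1 : ∀ᶠ s : ℕ in atTop, |A| * ((p.K : ℝ) * s ^ 2 + 2 ^ p.s₀ + 1) ≤ 2 ^ s / 2 := by
    have h2 := (tendsto_pow_const_div_const_pow_of_one_lt 2 (show (1 : ℝ) < 2 by norm_num)).const_mul
      (|A| * p.K)
    have h3 : Tendsto (fun s : ℕ => |A| * (2 ^ p.s₀ + 1) * (1 / 2 : ℝ) ^ s) atTop (𝓝 (|A| * (2 ^ p.s₀ + 1) * 0)) :=
      (tendsto_pow_atTop_nhds_zero_of_lt_one (by norm_num) (by norm_num)).const_mul _
    have h4 := h2.add h3
    simp only [mul_zero, add_zero] at h4
    filter_upwards [h4.eventually_le_const (show (0 : ℝ) < 1 / 2 by norm_num)] with s hs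
    have h5 : (0 : ℝ) < 2 ^ s := by positivity
    have h6 : |A| * ((p.K : ℝ) * s ^ 2 + 2 ^ p.s₀ + 1) =
        (|A| * p.K * (s ^ 2 / 2 ^ s) + |A| * (2 ^ p.s₀ + 1) * (1 / 2 : ℝ) ^ s) * 2 ^ s := by
      rw [one_div_pow]
      field_simp
      ring
    rw [h6]
    nlinarith
  filter_upwards [size_tendsto.eventually h1, eventually_ge_atTop 1] with n hn hn1
  have h2 : (2 : ℝ) ^ n.size / 2 ≤ n := by
    have h3 : 1 ≤ n.size := by
      have := Nat.lt_size.2 (show 2 ^ 0 ≤ n by simpa using hn1)
      omega
    have h4 : 2 ^ (n.size - 1) ≤ n := Nat.lt_size.1 (by omega)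
    have h5 : 2 ^ n.size ≤ 2 * n := by
      calc 2 ^ n.size = 2 * 2 ^ (n.size - 1) := by rw [← pow_succ']; congr 1; omega
        _ ≤ 2 * n := by omega
    have h6 : (2 : ℝ) ^ n.size ≤ 2 * n := by exact_mod_cast h5
    linarith
  have h3 : ((err p n : ℕ) : ℝ) + 1 = (p.K : ℝ) * n.size ^ 2 + 2 ^ p.s₀ + 1 := by
    unfold err
    push_cast
    ring
  rw [h3]
  refine le_trans ?_ (hn.trans h2)
  have h4 : (0 : ℝ) ≤ (p.K : ℝ) * n.size ^ 2 + 2 ^ p.s₀ + 1 := by positivity
  exact mul_le_mul_of_nonneg_right (le_abs_self A) h4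

lemma err_mono {m n : ℕ} (h : m ≤ n) : err p m ≤ err p n := by
  unfold err
  have := Nat.size_le_size h
  have h2 : m.size ^ 2 ≤ n.size ^ 2 := Nat.pow_le_pow_left this 2
  have h3 := Nat.mul_le_mul_left p.K h2
  omega

/-- real forms of the mass bounds, below `N` -/
lemma U_real {a c N : ℕ} (h : a ≤ c) (hc : c ≤ N) :
    (p.K : ℝ) * U p a c ≤ (c : ℝ) - a + 2 * err p N ∧ (c : ℝ) - a - 2 * err p N ≤ p.K * U p a c := by
  have h1 := U_upper p h
  have h2 := U_lower p h
  have h3 := err_mono p hc
  have h4 : ((c - a : ℕ) : ℝ) = (c : ℝ) - a := Nat.cast_sub h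
  constructor
  · have h5 : p.K * U p a c ≤ (c - a) + 2 * err p N := by omega
    have h6 : ((p.K * U p a c : ℕ) : ℝ) ≤ ((c - a + 2 * err p N : ℕ) : ℝ) := by exact_mod_cast h5
    push_cast at h6
    rw [h4] at h6
    linarith
  · have h5 : c - a ≤ p.K * U p a c + 2 * err p N := by omega
    have h6 : ((c - a : ℕ) : ℝ) ≤ ((p.K * U p a c + 2 * err p N : ℕ) : ℝ) := by exact_mod_cast h5
    push_cast at h6
    rw [h4] at h6
    linarith

lemma card_E (n : ℕ) : 4 * (E p 0 n).card ≤ U p 0 n := by
  rw [U_eq, mul_comm, ← smul_eq_mul, ← sum_const]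
  apply sum_le_sum
  intro i hi
  exact p.hs₀.trans (E_exc p _ _ i hi).1

lemma mm_ge (n : ℕ) : (3 / 4 : ℝ) * n - err p n ≤ mm p n := by
  have h1 : mm p n + (E p 0 n).card = n := by
    unfold mm E
    rw [← range_eq_Ico, add_comm, card_filter_add_card_filter_not, card_range]
  have h2 := card_E p n
  have h3 := (U_real p (Nat.zero_le n) le_rfl).1
  have h4 : (1 : ℝ) ≤ p.K := by exact_mod_cast p.hK
  have h5 : (0 : ℝ) ≤ U p 0 n := Nat.cast_nonneg _
  have h6 : (4 : ℝ) * (E p 0 n).card ≤ U p 0 n := by exact_mod_cast h2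
  have h7 : (mm p n : ℝ) + (E p 0 n).card = n := by exact_mod_cast h1
  have h8 : (0 : ℝ) ≤ err p n := Nat.cast_nonneg _
  push_cast at h3
  nlinarith

lemma two_le_ratio {n n' : ℕ} (h : n < n') (ω : ∀ i, Fin (wt p i)) :
    2 ≤ p.b ^ (mm p n' - mm p n) * Q (wt p) (fac p) (E p n n') ω := by
  have h1 : an p n' ω = an p n ω * (p.b ^ (mm p n' - mm p n) * Q (wt p) (fac p) (E p n n') ω) := by
    rw [an_eq, an_eq, Q_split p (Nat.zero_le n) h.le]
    have hm := mm_mono p h.le
    have e4 : p.b ^ mm p n' = p.b ^ (mm p n' - mm p n) * p.b ^ mm p n := by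
      rw [← pow_add, Nat.sub_add_cancel hm]
    rw [e4]
    ring
  have h2 : an p n' ω = an p n ω * ∏ i ∈ Ico n n', fac p i (ω i) := by
    unfold an
    rw [range_eq_Ico, range_eq_Ico, prod_Ico_consecutive _ (Nat.zero_le n) h.le]
  have h3 : 0 < an p n ω := by
    unfold an
    exact prod_pos fun i _ => fac_pos p i _
  have h4 : p.b ^ (mm p n' - mm p n) * Q (wt p) (fac p) (E p n n') ω = ∏ i ∈ Ico n n', fac p i (ω i) :=
    Nat.eq_of_mul_eq_mul_left h3 (h1.symm.trans h2)
  rw [h4]
  calc 2 ≤ fac p n (ω n) := fac_two_le p n _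
    _ ≤ ∏ i ∈ Ico n n', fac p i (ω i) :=
      single_le_prod' (f := fun i => fac p i (ω i)) (fun i _ => fac_pos p i _) (by rw [mem_Ico]; omega)

lemma Q_pos (J : Finset ℕ) (ω : ∀ i, Fin (wt p i)) : 1 ≤ Q (wt p) (fac p) J ω := by
  unfold Q
  exact Finset.one_le_prod' fun i _ => fac_pos p i _

lemma two_rpow_le {x : ℝ} (hx : 0 < x) {t : ℝ} (h : Real.log x ≤ t * Real.log 2) : x ≤ (2 : ℝ) ^ t := by
  rw [Real.rpow_def_of_pos (by norm_num), ← Real.exp_log hx]
  apply Real.exp_le_exp.2
  linarith

lemma log_pow_two_le {g k : ℕ} (hg : 1 ≤ g) (h : g ≤ 2 ^ k) : Real.log g ≤ k * Real.log 2 := by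
  have h1 : (g : ℝ) ≤ 2 ^ k := by exact_mod_cast h
  have h2 : (0 : ℝ) < g := by exact_mod_cast hg
  calc Real.log g ≤ Real.log (2 ^ k) := Real.log_le_log h2 h1
    _ = k * Real.log 2 := Real.log_pow _ _

theorem corr_alg (hV : p.V = 16) {y : ℝ} (hy : IsAlgebraic ℚ y) (hirr : Irrational y) :
    ∀ᶠ n' : ℕ in atTop, ∀ n < n', ‖∫ ω, cf p y n n' ω ∂(unif (wt p))‖ ≤ 1 / n' := by
  have hb := p.hb
  have hK0 : (0 : ℝ) < p.K := by exact_mod_cast p.hK
  have hK1 : (1 : ℝ) ≤ p.K := by exact_mod_cast p.hK
  have hl2 : 0 < Real.log 2 := Real.log_pos (by norm_num)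
  have hl2' : Real.log 2 < 0.7 := by have := Real.log_two_lt_d9; linarith
  have hl2'' : 0.69 < Real.log 2 := by have := Real.log_two_gt_d9; linarith
  set ε : ℝ := 1 / (4 * p.K) with hε
  have hε0 : 0 < ε := by positivity
  have hεK : ε * p.K = 1 / 4 := by rw [hε]; field_simp
  obtain ⟨M₁, hM₁⟩ := ridout_mult hb hy hirr hε0 200
  obtain ⟨M₂, hM₂⟩ := near hb hy hirr hε0 200
  -- the final bound
  have hfin : ∀ᶠ n' : ℕ in atTop, 3 * (2 : ℝ) ^ (-((n' : ℝ) / (8 * p.K))) ≤ (1 / n') ^ 2 := by
    have h1 : 1 < (2 : ℝ) ^ (1 / (8 * (p.K : ℝ))) := by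
      apply Real.one_lt_rpow (by norm_num)
      positivity
    have h2 := tendsto_pow_const_div_const_pow_of_one_lt 2 h1
    filter_upwards [h2.eventually_le_const (show (0 : ℝ) < 1 / 3 by norm_num), eventually_ge_atTop 1]
      with n hn hn1
    have h3 : ((2 : ℝ) ^ (1 / (8 * (p.K : ℝ)))) ^ n = (2 : ℝ) ^ ((n : ℝ) / (8 * p.K)) := by
      rw [← Real.rpow_natCast, ← Real.rpow_mul (by norm_num)]
      congr 1
      ring
    rw [h3, div_le_div_iff₀ (by positivity) (by norm_num)] at hn
    rw [Real.rpow_neg (by norm_num), one_div_pow, ← div_eq_mul_inv, div_le_div_iff₀ (by positivity)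
      (by have : (1 : ℝ) ≤ n := by exact_mod_cast hn1
          positivity)]
    linarith
  filter_upwards [hfin, err_small p 1000, eventually_ge_atTop (4 * M₁ + 16), eventually_ge_atTop (4 * M₂ + 16)]
    with n' hfin' herr hn1 hn2 n hn
  have hn'0 : (0 : ℝ) < n' := by
    have : 0 < n' := by omega
    exact_mod_cast this
  have hnn : (n : ℝ) ≤ n' := by exact_mod_cast hn.le
  have hn0 : (0 : ℝ) ≤ n := Nat.cast_nonneg n
  have herr0 : (0 : ℝ) ≤ err p n' := Nat.cast_nonneg _
  have key : ‖∫ ω, cf p y n n' ω ∂(unif (wt p))‖ ^ 2 ≤ 3 * (2 : ℝ) ^ (-((n' : ℝ) / (8 * p.K))) := by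
    have hLK : (n' : ℝ) / (8 * p.K) * p.K = n' / 8 := by field_simp
    have hKc : ∀ x y : ℝ, p.K * x ≤ p.K * y → x ≤ y := fun x y h => le_of_mul_le_mul_left h hK0
    rcases le_or_gt (10 * n) (3 * n') with hcase | hcase
    · -- far
      have hcR : (10 : ℝ) * n ≤ 3 * n' := by exact_mod_cast hcase
      set c := n + n' / 8 with hc
      have hcn' : c ≤ n' := by omega
      have hc1 : (c : ℝ) ≤ n + n' / 8 := by
        rw [hc]
        push_cast
        have : ((n' / 8 : ℕ) : ℝ) ≤ n' / 8 := Nat.cast_div_le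
        linarith
      have hc2 : (n : ℝ) + n' / 8 - 1 ≤ c := by
        have h1 : n + n' ≤ n + 8 * (n' / 8) + 8 := by omega
        have h2 : 8 * n + n' ≤ 8 * c + 8 := by omega
        have h3 : (8 : ℝ) * n + n' ≤ 8 * c + 8 := by exact_mod_cast h2
        linarith
      obtain ⟨u1, u2⟩ := U_real p (show n ≤ c by omega) hcn'
      obtain ⟨v1, v2⟩ := U_real p hcn' le_rfl
      obtain ⟨w1, w2⟩ := U_real p (Nat.zero_le n) hn.le
      push_cast at w1 w2
      have hmp : (mm p n' : ℝ) ≤ n' := by exact_mod_cast mm_le p n'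
      have hmg := mm_ge p n'
      set Γ := 3 * (U p c n' + U p n c) with hΓ
      have hΓR : (Γ : ℝ) = 3 * (U p c n' + U p n c) := by rw [hΓ]; push_cast; ring
      set T : ℝ := Γ + 18 * U p 0 n + ε * mm p n' / Real.log 2 with hT
      have hTε : ε * mm p n' / Real.log 2 * p.K ≤ n' / 2 := by
        rw [div_mul_eq_mul_div, div_le_iff₀ hl2]
        have : ε * mm p n' * p.K = mm p n' * (1 / 4) := by rw [mul_right_comm, hεK]; ring
        rw [this]
        nlinarith
      refine corr_far p y n n' c Γ (by omega) hcn' T _ ?_ ?_ ?_ ?_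
      · intro ω g hg1 hg2 z
        set R := Q (wt p) (fac p) (E p 0 n) ω with hR
        have hR1 : 1 ≤ R := Q_pos p _ ω
        have hR2 : R ≤ 2 ^ (18 * U p 0 n) := by
          have := Q_le p 0 n ω
          rwa [hV] at this
        have hgR1 : (1 : ℝ) ≤ g := by exact_mod_cast hg1
        have hRR1 : (1 : ℝ) ≤ R := by exact_mod_cast hR1
        have hlg := log_pow_two_le hg1 hg2
        have hlR := log_pow_two_le hR1 hR2
        have hlog : Real.log (((g * R : ℕ) : ℤ) : ℝ) = Real.log g + Real.log R := by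
          push_cast
          exact Real.log_mul (by positivity) (by positivity)
        have hmM : M₁ ≤ mm p n' := by
          have h5 : (M₁ : ℝ) ≤ mm p n' := by
            have : (4 * M₁ + 16 : ℝ) ≤ n' := by exact_mod_cast hn1
            linarith
          exact_mod_cast h5
        have hk := hM₁ (mm p n') hmM ((g * R : ℕ) : ℤ) (by
            have : 1 ≤ g * R := Nat.one_le_iff_ne_zero.2 (by positivity)
            exact_mod_cast this) (by
            rw [hlog]
            have h6 : (Γ : ℝ) ≤ 3 * n' + 12 * err p n' := by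
              rw [hΓR]
              nlinarith [(Nat.cast_nonneg (U p c n') : (0 : ℝ) ≤ U p c n'),
                (Nat.cast_nonneg (U p n c) : (0 : ℝ) ≤ U p n c)]
            have h7 : ((18 * U p 0 n : ℕ) : ℝ) ≤ 18 * n' + 36 * err p n' := by
              push_cast
              nlinarith [(Nat.cast_nonneg (U p 0 n) : (0 : ℝ) ≤ U p 0 n)]
            nlinarith) z
        have h8 : ((((g * R : ℕ) : ℤ) : ℝ)) * (p.b : ℝ) ^ mm p n' * y - z =
            g * (y * (p.b : ℝ) ^ mm p n' * (R : ℕ)) - z := by
          push_cast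
          ring
        rw [h8] at hk
        set D := |(g : ℝ) * (y * (p.b : ℝ) ^ mm p n' * (R : ℕ)) - z| with hD
        have hgRp : (0 : ℝ) < (((g * R : ℕ) : ℤ) : ℝ) := by push_cast; positivity
        have h9 : Real.exp (-(ε * mm p n')) / (((g * R : ℕ) : ℤ) : ℝ) ≤ D := by
          rw [div_le_iff₀ hgRp]
          linarith
        refine le_trans ?_ h9
        rw [le_div_iff₀ hgRp]
        have h10 : (((g * R : ℕ) : ℤ) : ℝ) ≤ (2 : ℝ) ^ ((Γ : ℝ) + 18 * U p 0 n) := by
          apply two_rpow_le hgRp
          rw [hlog]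
          push_cast at hlR
          linarith
        calc (2 : ℝ) ^ (-T) * (((g * R : ℕ) : ℤ) : ℝ) ≤ (2 : ℝ) ^ (-T) * (2 : ℝ) ^ ((Γ : ℝ) + 18 * U p 0 n) := by
              gcongr
          _ = (2 : ℝ) ^ (-(ε * mm p n' / Real.log 2)) := by
              rw [← Real.rpow_add (by norm_num), hT]
              congr 1
              ring
          _ = Real.exp (-(ε * mm p n')) := by
              rw [Real.rpow_def_of_pos (by norm_num)]
              congr 1
              field_simp
      · apply hKc
        rw [hΓR]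
        nlinarith
      · apply hKc
        rw [hV]
        push_cast
        nlinarith
      · apply hKc
        rw [hV, hT, hΓR]
        push_cast
        nlinarith
    · rcases le_or_gt (4 * n) (3 * n') with hcase2 | hcase2
      · -- middle
        have hcR : (3 : ℝ) * n' ≤ 10 * n := by exact_mod_cast hcase.le
        have hcR2 : (4 : ℝ) * n ≤ 3 * n' := by exact_mod_cast hcase2
        obtain ⟨u1, u2⟩ := U_real p (Nat.zero_le n) hn.le
        obtain ⟨v1, v2⟩ := U_real p hn.le le_rfl
        push_cast at u1 u2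
        have hmp : (mm p n' : ℝ) ≤ n' := by exact_mod_cast mm_le p n'
        have hmg := mm_ge p n'
        set Γ := 3 * (U p 0 n + U p n n') with hΓ
        have hΓR : (Γ : ℝ) = 3 * (U p 0 n + U p n n') := by rw [hΓ]; push_cast; ring
        set T : ℝ := Γ + ε * mm p n' / Real.log 2 with hT
        have hTε : ε * mm p n' / Real.log 2 * p.K ≤ n' / 2 := by
          rw [div_mul_eq_mul_div, div_le_iff₀ hl2]
          have : ε * mm p n' * p.K = mm p n' * (1 / 4) := by rw [mul_right_comm, hεK]; ring
          rw [this]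
          nlinarith
        refine corr_mid p y n n' Γ hn.le T _ ?_ ?_ ?_ ?_
        · intro g hg1 hg2 z
          have hgR1 : (1 : ℝ) ≤ g := by exact_mod_cast hg1
          have hlg := log_pow_two_le hg1 hg2
          have hmM : M₁ ≤ mm p n' := by
            have h5 : (M₁ : ℝ) ≤ mm p n' := by
              have : (4 * M₁ + 16 : ℝ) ≤ n' := by exact_mod_cast hn1
              linarith
            exact_mod_cast h5
          have hk := hM₁ (mm p n') hmM (g : ℤ) (by exact_mod_cast hg1) (by
              have h6 : (Γ : ℝ) ≤ 3 * n' + 12 * err p n' := by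
                rw [hΓR]
                nlinarith [(Nat.cast_nonneg (U p 0 n) : (0 : ℝ) ≤ U p 0 n),
                  (Nat.cast_nonneg (U p n n') : (0 : ℝ) ≤ U p n n')]
              push_cast
              nlinarith) z
          have h8 : (((g : ℤ) : ℝ)) * (p.b : ℝ) ^ mm p n' * y - z =
              g * (y * (p.b : ℝ) ^ mm p n') - z := by
            push_cast
            ring
          rw [h8] at hk
          push_cast at hk
          set D := |(g : ℝ) * (y * (p.b : ℝ) ^ mm p n') - z| with hD
          have h9 : Real.exp (-(ε * mm p n')) / g ≤ D := by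
            rw [div_le_iff₀ (by linarith)]
            linarith
          refine le_trans ?_ h9
          rw [le_div_iff₀ (by linarith)]
          have h10 : (g : ℝ) ≤ (2 : ℝ) ^ (Γ : ℝ) := two_rpow_le (by linarith) hlg
          calc (2 : ℝ) ^ (-T) * g ≤ (2 : ℝ) ^ (-T) * (2 : ℝ) ^ (Γ : ℝ) := by gcongr
            _ = (2 : ℝ) ^ (-(ε * mm p n' / Real.log 2)) := by
                rw [← Real.rpow_add (by norm_num), hT]
                congr 1
                ring
            _ = Real.exp (-(ε * mm p n')) := by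
                rw [Real.rpow_def_of_pos (by norm_num)]
                congr 1
                field_simp
        · apply hKc
          rw [hΓR]
          nlinarith
        · apply hKc
          rw [hV]
          push_cast
          nlinarith
        · apply hKc
          rw [hV, hT, hΓR]
          push_cast
          nlinarith
      · -- near
        have hcR2 : (3 : ℝ) * n' ≤ 4 * n := by exact_mod_cast hcase2.le
        set c := n' / 8 with hc
        have hcn : c ≤ n := by omega
        have hc1 : (c : ℝ) ≤ n' / 8 := Nat.cast_div_le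
        have hc2 : (n' : ℝ) / 8 - 1 ≤ c := by
          have h2 : n' ≤ 8 * c + 8 := by omega
          have h3 : (n' : ℝ) ≤ 8 * c + 8 := by exact_mod_cast h2
          linarith
        obtain ⟨u1, u2⟩ := U_real p (Nat.zero_le c) (hcn.trans hn.le)
        obtain ⟨v1, v2⟩ := U_real p hcn hn.le
        obtain ⟨w1, w2⟩ := U_real p hn.le le_rfl
        push_cast at u1 u2
        have hmp : (mm p n : ℝ) ≤ n := by exact_mod_cast mm_le p n
        have hmp' : (mm p n' : ℝ) ≤ n' := by exact_mod_cast mm_le p n'
        have hmg := mm_ge p n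
        have herrn : (err p n : ℝ) ≤ err p n' := by exact_mod_cast err_mono p hn.le
        set Γ := 3 * (U p c n + U p 0 c) with hΓ
        have hΓR : (Γ : ℝ) = 3 * (U p c n + U p 0 c) := by rw [hΓ]; push_cast; ring
        set T : ℝ := 2 * Γ + 18 * U p n n' + ε * mm p n / Real.log 2 with hT
        have hTε : ε * mm p n / Real.log 2 * p.K ≤ n' / 2 := by
          rw [div_mul_eq_mul_div, div_le_iff₀ hl2]
          have : ε * mm p n * p.K = mm p n * (1 / 4) := by rw [mul_right_comm, hεK]; ring
          rw [this]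
          nlinarith
        refine corr_near p y n n' c Γ hcn hn.le T _ ?_ ?_ ?_ ?_
        · intro ω g hg1 hg2 z
          set R := Q (wt p) (fac p) (E p n n') ω with hR
          set d := mm p n' - mm p n with hd
          have hdle : (d : ℝ) ≤ n' := by
            have : d ≤ mm p n' := Nat.sub_le _ _
            have h5 : (d : ℝ) ≤ mm p n' := by exact_mod_cast this
            linarith
          have hR1 : 1 ≤ R := Q_pos p _ ω
          have hR2 : R ≤ 2 ^ (18 * U p n n') := by
            have := Q_le p n n' ω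
            rwa [hV] at this
          have hgR1 : (1 : ℝ) ≤ g := by exact_mod_cast hg1
          have hRR1 : (1 : ℝ) ≤ R := by exact_mod_cast hR1
          have hlg := log_pow_two_le hg1 hg2
          have hlR := log_pow_two_le hR1 hR2
          have hmn : (n' : ℝ) ≤ 2 * mm p n := by linarith
          have hmM : M₂ ≤ mm p n := by
            have h5 : (M₂ : ℝ) ≤ mm p n := by
              have : (4 * M₂ + 16 : ℝ) ≤ n' := by exact_mod_cast hn2
              linarith
            exact_mod_cast h5
          have hk := hM₂ (mm p n) hmM (g : ℤ) (R : ℤ) d (by exact_mod_cast hg1)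
            (by exact_mod_cast hR1) (by exact_mod_cast two_le_ratio p hn ω) (by
              have h6 : (Γ : ℝ) ≤ 3 * n' + 12 * err p n' := by
                rw [hΓR]
                nlinarith [(Nat.cast_nonneg (U p c n) : (0 : ℝ) ≤ U p c n),
                  (Nat.cast_nonneg (U p 0 c) : (0 : ℝ) ≤ U p 0 c)]
              push_cast
              nlinarith) (by
              have h7 : ((18 * U p n n' : ℕ) : ℝ) ≤ 18 * n' + 36 * err p n' := by
                push_cast
                nlinarith [(Nat.cast_nonneg (U p n n') : (0 : ℝ) ≤ U p n n')]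
              push_cast
              nlinarith) (by nlinarith) z
          have h8 : ((g : ℤ) : ℝ) * ((p.b : ℝ) ^ d * ((R : ℤ) : ℝ) - 1) * (p.b : ℝ) ^ mm p n * y - z =
              g * (y * ((p.b : ℝ) ^ d * (R : ℕ) - 1) * (p.b : ℝ) ^ mm p n) - z := by
            push_cast
            ring
          rw [h8] at hk
          push_cast at hk
          set D := |(g : ℝ) * (y * ((p.b : ℝ) ^ d * (R : ℕ) - 1) * (p.b : ℝ) ^ mm p n) - z| with hD
          have hgRp : (0 : ℝ) < (g : ℝ) ^ 2 * R := by positivity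
          have h9 : Real.exp (-(ε * mm p n)) / ((g : ℝ) ^ 2 * R) ≤ D := by
            rw [div_le_iff₀ hgRp]
            linarith
          refine le_trans ?_ h9
          rw [le_div_iff₀ hgRp]
          have h10 : (g : ℝ) ^ 2 * R ≤ (2 : ℝ) ^ (2 * (Γ : ℝ) + 18 * U p n n') := by
            apply two_rpow_le hgRp
            rw [Real.log_mul (by positivity) (by positivity), Real.log_pow]
            push_cast at hlR ⊢
            linarith
          calc (2 : ℝ) ^ (-T) * ((g : ℝ) ^ 2 * R) ≤
              (2 : ℝ) ^ (-T) * (2 : ℝ) ^ (2 * (Γ : ℝ) + 18 * U p n n') := by gcongr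
            _ = (2 : ℝ) ^ (-(ε * mm p n / Real.log 2)) := by
                rw [← Real.rpow_add (by norm_num), hT]
                congr 1
                ring
            _ = Real.exp (-(ε * mm p n)) := by
                rw [Real.rpow_def_of_pos (by norm_num)]
                congr 1
                field_simp
        · apply hKc
          rw [hΓR]
          nlinarith
        · apply hKc
          rw [hV]
          push_cast
          nlinarith
        · apply hKc
          rw [hV, hT, hΓR]
          push_cast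
          nlinarith
  have h1 := key.trans hfin'
  exact (pow_le_pow_iff_left₀ (norm_nonneg _) (by positivity) (by norm_num)).1 h1

end Pool.Agent.H607.Mix
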