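import Pool.Agent.H607.DigitLaw
import Mathlib

/-!
# A bilinear bound
-/

set_option autoImplicit false

namespace Pool.Agent.H607.Mix

open Finset Filter Topology
open Pool.Agent.W206.ND (ee)
open Pool.Agent.H607

lemma ee_sub_one_ge (θ δ : ℝ) (hδ : ∀ z : ℤ, δ ≤ |θ - z|) : 4 * δ ≤ ‖ee θ - 1‖ := by
  set t := θ - round θ with ht
  have h1 : |t| ≤ 1 / 2 := abs_sub_round θ
  have h2 : δ ≤ |t| := hδ (round θ)
  have h3 : ee θ = ee t := by
    have := ee_add_int t (round θ)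
    rw [← this, ht]
    congr 1
    ring
  rw [h3]
  have h4 : ‖ee t - 1‖ = ‖2 * Real.sin (Real.pi * t)‖ := by
    have h5 := Complex.norm_exp_I_mul_ofReal_sub_one (2 * Real.pi * t)
    unfold Pool.Agent.W206.ND.ee
    rw [show 2 * Real.pi * t / 2 = Real.pi * t by ring] at h5
    rw [← h5]
    congr 3
    push_cast
    ring
  have h5 : 2 * |t| ≤ |Real.sin (Real.pi * t)| := by
    have h6 : |Real.sin (Real.pi * t)| = Real.sin (Real.pi * |t|) := by
      rcases le_total 0 t with h | h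
      · rw [abs_of_nonneg h] at h1 ⊢
        rw [abs_of_nonneg]
        apply Real.sin_nonneg_of_nonneg_of_le_pi (by positivity)
        nlinarith [Real.pi_pos]
      · rw [abs_of_nonpos h] at h1 ⊢
        rw [mul_neg, Real.sin_neg, abs_of_nonpos]
        apply Real.sin_nonpos_of_nonpos_of_neg_pi_le
        · nlinarith [Real.pi_pos]
        · nlinarith [Real.pi_pos]
    rw [h6]
    have h7 := Real.mul_le_sin (x := Real.pi * |t|) (by positivity) (by nlinarith [Real.pi_pos])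
    have h8 : 2 / Real.pi * (Real.pi * |t|) = 2 * |t| := by
      field_simp
    linarith
  rw [h4, Real.norm_eq_abs, abs_mul, abs_two]
  linarith

lemma ee_nat_mul (a : ℕ) (θ : ℝ) : ee (a * θ) = ee θ ^ a := by
  induction a with
  | zero => simp [ee_zero]
  | succ a ih => rw [pow_succ, ← ih, ← ee_add]; congr 1; push_cast; ring

lemma geo_le (A : ℕ) (θ : ℝ) : ‖∑ a ∈ Icc 1 A, ee (a * θ)‖ * ‖ee θ - 1‖ ≤ 2 := by
  rw [← norm_mul]
  have h1 : (∑ a ∈ Icc 1 A, ee (a * θ)) * (ee θ - 1) = ee θ ^ (A + 1) - ee θ := by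
    induction A with
    | zero => simp
    | succ A ih =>
      rw [← Finset.insert_Icc_right_eq_Icc_add_one (by omega), sum_insert (by simp), add_mul, ih, ee_nat_mul]
      ring
  rw [h1]
  calc ‖ee θ ^ (A + 1) - ee θ‖ ≤ ‖ee θ ^ (A + 1)‖ + ‖ee θ‖ := norm_sub_le _ _
    _ = 2 := by rw [norm_pow, ee_norm]; norm_num

lemma geo_le' (A : ℕ) (θ δ : ℝ) (hδ0 : 0 < δ) (hδ : ∀ z : ℤ, δ ≤ |θ - z|) :
    ‖∑ a ∈ Icc 1 A, ee (a * θ)‖ ≤ 1 / (2 * δ) := by
  have h1 := geo_le A θ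
  have h2 := ee_sub_one_ge θ δ hδ
  rw [le_div_iff₀ (by positivity)]
  have h3 := norm_nonneg (∑ a ∈ Icc 1 A, ee (a * θ))
  nlinarith

lemma geo_le_card (A : ℕ) (θ : ℝ) : ‖∑ a ∈ Icc 1 A, ee (a * θ)‖ ≤ A := by
  refine (norm_sum_le _ _).trans ?_
  simp [ee_norm]

/-- a separated set is small -/
lemma card_sep (B G : ℕ) (s : Finset ℕ) (hs : ∀ b ∈ s, b ≤ B)
    (hsep : ∀ b ∈ s, ∀ b' ∈ s, b < b' → G < b' - b) : s.card ≤ B / (G + 1) + 1 := by
  have h1 : Set.MapsTo (fun b => b / (G + 1)) (s : Set ℕ) (range (B / (G + 1) + 1)) := by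
    intro b hb
    rw [mem_coe, mem_range, Nat.lt_succ_iff]
    exact Nat.div_le_div_right (hs b hb)
  have h2 : Set.InjOn (fun b => b / (G + 1)) (s : Set ℕ) := by
    intro b hb b' hb' h
    simp only at h
    by_contra hne
    rcases lt_or_gt_of_ne hne with hlt | hlt
    · have h3 := hsep b hb b' hb' hlt
      have h4 := Nat.div_add_mod b (G + 1)
      have h5 := Nat.div_add_mod b' (G + 1)
      have h6 := Nat.mod_lt b' (Nat.succ_pos G)
      rw [h] at h4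
      have : b % (G + 1) < G + 1 := Nat.mod_lt b (Nat.succ_pos G)
      simp only [Nat.succ_eq_add_one] at h6
      omega
    · have h3 := hsep b' hb' b hb hlt
      have h4 := Nat.div_add_mod b (G + 1)
      have h5 := Nat.div_add_mod b' (G + 1)
      have h6 := Nat.mod_lt b (Nat.succ_pos G)
      rw [h] at h4
      have : b' % (G + 1) < G + 1 := Nat.mod_lt b' (Nat.succ_pos G)
      simp only [Nat.succ_eq_add_one] at h6
      omega
  have h3 := card_le_card_of_injOn _ h1 h2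
  rwa [card_range] at h3

/-- the bilinear bound -/
theorem bilin (φ τ : ℝ) (hτ : 0 < τ) (G A B : ℕ) (hφ : ∀ g : ℕ, 1 ≤ g → g ≤ G → ∀ z : ℤ, τ ≤ |g * φ - z|)
    (p r : ℕ → ℝ) (hp0 : ∀ b, 0 ≤ p b) (hr0 : ∀ a, 0 ≤ r a) (P R : ℝ) (hpP : ∀ b, p b ≤ P)
    (hrR : ∀ a, r a ≤ R) (hp1 : ∑ b ∈ Icc 1 B, p b ≤ 1) (hr1 : ∑ a ∈ Icc 1 A, r a ≤ 1) :
    (∑ a ∈ Icc 1 A, r a * ‖∑ b ∈ Icc 1 B, (p b : ℂ) * ee (φ * a * b)‖) ^ 2 ≤
      R * (A * ((B / (G + 1) + 1 : ℕ) * P) + 1 / τ) := by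
  set c : ℕ → ℂ := fun a => ∑ b ∈ Icc 1 B, (p b : ℂ) * ee (φ * a * b) with hc
  have hP0 : 0 ≤ P := (hp0 0).trans (hpP 0)
  have hR0 : 0 ≤ R := (hr0 0).trans (hrR 0)
  -- Cauchy-Schwarz
  have h1 : (∑ a ∈ Icc 1 A, r a * ‖c a‖) ^ 2 ≤ (∑ a ∈ Icc 1 A, r a) * ∑ a ∈ Icc 1 A, r a * ‖c a‖ ^ 2 := by
    have h := sum_mul_sq_le_sq_mul_sq (Icc 1 A) (fun a => Real.sqrt (r a)) (fun a => Real.sqrt (r a) * ‖c a‖)
    have e1 : ∀ a, Real.sqrt (r a) * (Real.sqrt (r a) * ‖c a‖) = r a * ‖c a‖ := fun a => by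
      rw [← mul_assoc, Real.mul_self_sqrt (hr0 a)]
    have e2 : ∀ a, (Real.sqrt (r a)) ^ 2 = r a := fun a => Real.sq_sqrt (hr0 a)
    have e3 : ∀ a, (Real.sqrt (r a) * ‖c a‖) ^ 2 = r a * ‖c a‖ ^ 2 := fun a => by
      rw [mul_pow, e2]
    simp only [e1, e2, e3] at h
    exact h
  have h2 : ∑ a ∈ Icc 1 A, r a * ‖c a‖ ^ 2 ≤ R * ∑ a ∈ Icc 1 A, ‖c a‖ ^ 2 := by
    rw [mul_sum]
    exact sum_le_sum fun a _ => mul_le_mul_of_nonneg_right (hrR a) (by positivity)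
  have h2' : 0 ≤ ∑ a ∈ Icc 1 A, r a * ‖c a‖ ^ 2 := sum_nonneg fun a _ => mul_nonneg (hr0 a) (by positivity)
  have h3 : (∑ a ∈ Icc 1 A, r a * ‖c a‖) ^ 2 ≤ R * ∑ a ∈ Icc 1 A, ‖c a‖ ^ 2 := by
    refine h1.trans (le_trans ?_ h2)
    calc (∑ a ∈ Icc 1 A, r a) * ∑ a ∈ Icc 1 A, r a * ‖c a‖ ^ 2 ≤
        1 * ∑ a ∈ Icc 1 A, r a * ‖c a‖ ^ 2 := mul_le_mul_of_nonneg_right hr1 h2'
      _ = _ := one_mul _
  refine h3.trans (mul_le_mul_of_nonneg_left ?_ hR0)
  -- opening the square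
  have h4 : ((∑ a ∈ Icc 1 A, ‖c a‖ ^ 2 : ℝ) : ℂ) = ∑ b ∈ Icc 1 B, ∑ b' ∈ Icc 1 B,
      (p b : ℂ) * (p b' : ℂ) * ∑ a ∈ Icc 1 A, ee (a * (φ * ((b : ℝ) - b'))) := by
    have e1 : ∀ a, ((‖c a‖ ^ 2 : ℝ) : ℂ) = ∑ b ∈ Icc 1 B, ∑ b' ∈ Icc 1 B,
        (p b : ℂ) * (p b' : ℂ) * ee (a * (φ * ((b : ℝ) - b'))) := by
      intro a
      rw [Complex.ofReal_pow, ← Complex.mul_conj' (c a), hc]
      simp only
      rw [map_sum, sum_mul_sum]
      refine sum_congr rfl fun b _ => sum_congr rfl fun b' _ => ?_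
      rw [map_mul, ee_conj, Complex.conj_ofReal]
      have : ee (a * (φ * ((b : ℝ) - b'))) = ee (φ * a * b) * ee (-(φ * a * b')) := by
        rw [← ee_add]
        congr 1
        ring
      rw [this]
      ring
    rw [Complex.ofReal_sum]
    simp only [e1]
    rw [sum_comm]
    refine sum_congr rfl fun b _ => ?_
    rw [sum_comm]
    refine sum_congr rfl fun b' _ => ?_
    rw [mul_sum]
  have h5 : ∑ a ∈ Icc 1 A, ‖c a‖ ^ 2 ≤ ∑ b ∈ Icc 1 B, ∑ b' ∈ Icc 1 B,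
      p b * p b' * ‖∑ a ∈ Icc 1 A, ee (a * (φ * ((b : ℝ) - b')))‖ := by
    have h6 : ∑ a ∈ Icc 1 A, ‖c a‖ ^ 2 = ‖((∑ a ∈ Icc 1 A, ‖c a‖ ^ 2 : ℝ) : ℂ)‖ := by
      rw [Complex.norm_real, Real.norm_of_nonneg (sum_nonneg fun a _ => by positivity)]
    rw [h6, h4]
    refine (norm_sum_le _ _).trans (sum_le_sum fun b _ => (norm_sum_le _ _).trans (sum_le_sum fun b' _ => ?_))
    rw [norm_mul, norm_mul, Complex.norm_real, Complex.norm_real, Real.norm_of_nonneg (hp0 b),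
      Real.norm_of_nonneg (hp0 b')]
  refine h5.trans ?_
  -- the inner sums
  classical
  have h7 : ∀ b ∈ Icc 1 B, ∑ b' ∈ Icc 1 B,
      p b * p b' * ‖∑ a ∈ Icc 1 A, ee (a * (φ * ((b : ℝ) - b')))‖ ≤
      p b * (A * ((B / (G + 1) + 1 : ℕ) * P) + 1 / τ) := by
    intro b _
    set bad : Finset ℕ := (Icc 1 B).filter fun b' : ℕ => ∃ z : ℤ, |φ * ((b : ℝ) - b') - z| < τ / 2 with hbad
    have hcard : bad.card ≤ B / (G + 1) + 1 := by
      apply card_sep
      · intro b' hb'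
        rw [hbad, mem_filter, mem_Icc] at hb'
        exact hb'.1.2
      · intro b₁ hb₁ b₂ hb₂ hlt
        rw [hbad, mem_filter, mem_Icc] at hb₁ hb₂
        obtain ⟨_, z₁, hz₁⟩ := hb₁
        obtain ⟨_, z₂, hz₂⟩ := hb₂
        by_contra hG
        push Not at hG
        have h8 := hφ (b₂ - b₁) (by omega) hG (z₁ - z₂)
        have h9 : ((b₂ - b₁ : ℕ) : ℝ) * φ - ((z₁ - z₂ : ℤ) : ℝ) =
            (φ * ((b : ℝ) - b₁) - z₁) - (φ * ((b : ℝ) - b₂) - z₂) := by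
          rw [Nat.cast_sub hlt.le]
          push_cast
          ring
        rw [h9] at h8
        have h10 := abs_sub (φ * ((b : ℝ) - b₁) - z₁) (φ * ((b : ℝ) - b₂) - z₂)
        linarith
    have hpt : ∀ b' ∈ Icc 1 B, p b' * ‖∑ a ∈ Icc 1 A, ee (a * (φ * ((b : ℝ) - b')))‖ ≤
        (if b' ∈ bad then A * P else 0) + p b' * (1 / τ) := by
      intro b' hb'
      have hτ' : 0 ≤ p b' * (1 / τ) := mul_nonneg (hp0 b') (by positivity)
      by_cases hb : b' ∈ bad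
      · rw [if_pos hb]
        have h8 : p b' * ‖∑ a ∈ Icc 1 A, ee (a * (φ * ((b : ℝ) - b')))‖ ≤ P * A :=
          mul_le_mul (hpP b') (geo_le_card A _) (norm_nonneg _) hP0
        linarith
      · rw [if_neg hb, zero_add]
        apply mul_le_mul_of_nonneg_left _ (hp0 b')
        have h8 : ∀ z : ℤ, τ / 2 ≤ |φ * ((b : ℝ) - b') - z| := by
          intro z
          by_contra h9
          push Not at h9
          apply hb
          rw [hbad, mem_filter]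
          exact ⟨hb', z, h9⟩
        have h9 := geo_le' A (φ * ((b : ℝ) - b')) (τ / 2) (by positivity) h8
        rwa [show 2 * (τ / 2) = τ by ring] at h9
    calc ∑ b' ∈ Icc 1 B, p b * p b' * ‖∑ a ∈ Icc 1 A, ee (a * (φ * ((b : ℝ) - b')))‖ =
        p b * ∑ b' ∈ Icc 1 B, p b' * ‖∑ a ∈ Icc 1 A, ee (a * (φ * ((b : ℝ) - b')))‖ := by
          rw [mul_sum]
          exact sum_congr rfl fun b' _ => by ring
      _ ≤ p b * ∑ b' ∈ Icc 1 B, ((if b' ∈ bad then A * P else 0) + p b' * (1 / τ)) :=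
          mul_le_mul_of_nonneg_left (sum_le_sum hpt) (hp0 b)
      _ ≤ p b * (A * ((B / (G + 1) + 1 : ℕ) * P) + 1 / τ) := by
          apply mul_le_mul_of_nonneg_left _ (hp0 b)
          rw [sum_add_distrib, ← sum_mul, ← sum_filter]
          have e1 : (Icc 1 B).filter (fun b' => b' ∈ bad) = bad := by
            ext b'
            rw [mem_filter]
            constructor
            · exact fun h => h.2
            · intro h
              refine ⟨?_, h⟩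
              rw [hbad, mem_filter] at h
              exact h.1
          rw [e1, sum_const, nsmul_eq_mul]
          have h8 : (bad.card : ℝ) * (A * P) ≤ ((B / (G + 1) + 1 : ℕ) : ℝ) * (A * P) := by
            apply mul_le_mul_of_nonneg_right _ (by positivity)
            exact_mod_cast hcard
          have h9 : (∑ b' ∈ Icc 1 B, p b') * (1 / τ) ≤ 1 * (1 / τ) :=
            mul_le_mul_of_nonneg_right hp1 (by positivity)
          linarith
  refine (sum_le_sum h7).trans ?_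
  rw [← sum_mul]
  calc (∑ b ∈ Icc 1 B, p b) * (A * ((B / (G + 1) + 1 : ℕ) * P) + 1 / τ) ≤
      1 * (A * ((B / (G + 1) + 1 : ℕ) * P) + 1 / τ) :=
        mul_le_mul_of_nonneg_right hp1 (by positivity)
    _ = _ := one_mul _

end Pool.Agent.H607.Mix
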