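import Pool.Agent.H607.Mix.Alg
import Mathlib

/-!
# The number of the exceptional places and the size of the products
-/

set_option autoImplicit false

namespace Pool.Agent.H607.Mix

open Finset Filter Topology

variable (p : Par)

/-- few exceptional places -/
lemma few_exc : ∀ᶠ N : ℕ in atTop, ((E p 0 N).card : ℝ) ≤ 7 * N / (p.K * Real.log N) := by
  have hK0 : (0 : ℝ) < p.K := by exact_mod_cast p.hK
  have hsq : ∀ᶠ N : ℕ in atTop, (p.K : ℝ) * (Real.log N) * (Real.sqrt N + 1) ≤ N := by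
    have h1 : ∀ᶠ N : ℕ in atTop, Real.log N ≤ 1 / (2 * p.K) * (N : ℝ) ^ (1 / 2 : ℝ) := by
      have h2 := (isLittleO_log_rpow_atTop (show (0 : ℝ) < 1 / 2 by norm_num)).def
        (show (0 : ℝ) < 1 / (2 * p.K) by positivity)
      filter_upwards [tendsto_natCast_atTop_atTop.eventually h2] with N hN
      rw [Real.norm_eq_abs, Real.norm_eq_abs, abs_of_nonneg (a := (N : ℝ) ^ (1 / 2 : ℝ)) (by positivity)] at hN
      exact (le_abs_self _).trans hN
    filter_upwards [h1, eventually_ge_atTop 1] with N hN hN1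
    have hN1' : (1 : ℝ) ≤ N := by exact_mod_cast hN1
    rw [← Real.sqrt_eq_rpow] at hN
    have h3 : Real.sqrt N * Real.sqrt N = N := Real.mul_self_sqrt (by linarith)
    have h4 : 1 ≤ Real.sqrt N := Real.one_le_sqrt.2 hN1'
    have h5 : 0 ≤ Real.log N := Real.log_nonneg hN1'
    calc (p.K : ℝ) * (Real.log N) * (Real.sqrt N + 1) ≤
        p.K * (1 / (2 * p.K) * Real.sqrt N) * (Real.sqrt N + 1) := by gcongr
      _ = Real.sqrt N * (Real.sqrt N + 1) / 2 := by field_simp
      _ ≤ N := by nlinarith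
  filter_upwards [hsq, err_small p 2, eventually_ge_atTop 2] with N hN herr hN2
  have hN2' : (2 : ℝ) ≤ N := by exact_mod_cast hN2
  have hlog : 0 < Real.log N := Real.log_pos (by linarith)
  have hU := U_real p (Nat.zero_le N) le_rfl
  have hsplit : ((E p 0 N).card : ℝ) ≤ (Real.sqrt N + 1) + (2 / Real.log N) * U p 0 N := by
    set s := ⌈Real.sqrt N⌉₊ with hs
    have h1 : E p 0 N ⊆ range s ∪ (E p 0 N).filter (fun i => s ≤ i) := by
      intro i hi
      rw [mem_union, mem_range, mem_filter]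
      rcases lt_or_ge i s with h | h
      · exact Or.inl h
      · exact Or.inr ⟨hi, h⟩
    have h2 := (card_le_card h1).trans (card_union_le _ _)
    rw [card_range] at h2
    have h3 : (s : ℝ) ≤ Real.sqrt N + 1 := (Nat.ceil_lt_add_one (Real.sqrt_nonneg _)).le
    have h4 : (((E p 0 N).filter (fun i => s ≤ i)).card : ℝ) * (Real.log N / 2) ≤ U p 0 N := by
      rw [U_eq]
      push_cast
      calc (((E p 0 N).filter (fun i => s ≤ i)).card : ℝ) * (Real.log N / 2) =
          ∑ i ∈ (E p 0 N).filter (fun i => s ≤ i), (Real.log N / 2) := by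
            rw [sum_const, nsmul_eq_mul]
        _ ≤ ∑ i ∈ (E p 0 N).filter (fun i => s ≤ i), (i.size : ℝ) := by
            refine sum_le_sum fun i hi => ?_
            have hi2 := (mem_filter.1 hi).2
            have h5 : Real.sqrt N ≤ i := (Nat.le_ceil _).trans (by exact_mod_cast hi2)
            have h6 : (i : ℝ) ≤ 2 ^ i.size := by exact_mod_cast (Nat.lt_size_self i).le
            have h7 : Real.log (Real.sqrt N) ≤ Real.log (2 ^ i.size) :=
              Real.log_le_log (Real.sqrt_pos.2 (by linarith)) (h5.trans h6)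
            rw [Real.log_pow, Real.log_sqrt (by linarith)] at h7
            have h8 : Real.log 2 < 1 := by have := Real.log_two_lt_d9; linarith
            have h9 : (0 : ℝ) ≤ i.size := Nat.cast_nonneg _
            nlinarith
        _ ≤ ∑ i ∈ E p 0 N, (i.size : ℝ) :=
            sum_le_sum_of_subset_of_nonneg (filter_subset _ _) fun i _ _ => Nat.cast_nonneg _
    have h5 : (((E p 0 N).filter (fun i => s ≤ i)).card : ℝ) ≤ (2 / Real.log N) * U p 0 N := by
      rw [div_mul_eq_mul_div, le_div_iff₀ hlog]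
      linarith
    have h6 : ((E p 0 N).card : ℝ) ≤ s + ((E p 0 N).filter (fun i => s ≤ i)).card := by exact_mod_cast h2
    linarith
  have h2 : (p.K : ℝ) * U p 0 N ≤ 2 * N := by
    have := U_upper p (Nat.zero_le N)
    have h3 : (p.K : ℝ) * U p 0 N ≤ (N - 0 : ℕ) + 2 * err p N := by exact_mod_cast this
    rw [Nat.sub_zero] at h3
    linarith
  rw [le_div_iff₀ (by positivity)]
  calc ((E p 0 N).card : ℝ) * (p.K * Real.log N) ≤
      ((Real.sqrt N + 1) + (2 / Real.log N) * U p 0 N) * (p.K * Real.log N) := by gcongr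
    _ = p.K * Real.log N * (Real.sqrt N + 1) + 2 * (p.K * U p 0 N) := by field_simp
    _ ≤ 7 * N := by linarith

/-- the products -/
lemma prod_le (ω : ∀ i, Fin (wt p i)) : ∀ᶠ N : ℕ in atTop,
    (an p N ω : ℝ) ≤ (p.b : ℝ) ^ ((1 + 2 * (p.V + 2) / p.K) * N : ℝ) := by
  have hK0 : (0 : ℝ) < p.K := by exact_mod_cast p.hK
  have hb : (2 : ℝ) ≤ p.b := by exact_mod_cast p.hb
  filter_upwards [err_small p 2] with N herr
  rw [an_eq]
  have h1 := Q_le p 0 N ω
  have h2 : (p.K : ℝ) * U p 0 N ≤ 2 * N := by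
    have := U_upper p (Nat.zero_le N)
    have h3 : (p.K : ℝ) * U p 0 N ≤ (N - 0 : ℕ) + 2 * err p N := by exact_mod_cast this
    rw [Nat.sub_zero] at h3
    linarith
  have h3 : ((2 ^ ((p.V + 2) * U p 0 N) : ℕ) : ℝ) ≤ (p.b : ℝ) ^ ((2 * (p.V + 2) / p.K) * N : ℝ) := by
    push_cast
    calc (2 : ℝ) ^ ((p.V + 2) * U p 0 N) ≤ (p.b : ℝ) ^ ((p.V + 2) * U p 0 N) := by gcongr
      _ = (p.b : ℝ) ^ (((p.V + 2) * U p 0 N : ℕ) : ℝ) := (Real.rpow_natCast _ _).symm
      _ ≤ (p.b : ℝ) ^ ((2 * (p.V + 2) / p.K) * N : ℝ) := by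
          apply Real.rpow_le_rpow_of_exponent_le (by linarith)
          push_cast
          rw [div_mul_eq_mul_div, le_div_iff₀ hK0]
          nlinarith [p.V.cast_nonneg (α := ℝ)]
  push_cast
  calc (p.b : ℝ) ^ mm p N * (Q (wt p) (fac p) (E p 0 N) ω : ℝ) ≤
      (p.b : ℝ) ^ N * (p.b : ℝ) ^ ((2 * (p.V + 2) / p.K) * N : ℝ) := by
        apply mul_le_mul
        · exact pow_le_pow_right₀ (by linarith) (mm_le p N)
        · refine le_trans ?_ h3
          exact_mod_cast h1
        · positivity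
        · positivity
    _ = (p.b : ℝ) ^ ((1 + 2 * (p.V + 2) / p.K) * N : ℝ) := by
        rw [← Real.rpow_natCast, ← Real.rpow_add (by linarith)]
        congr 1
        ring

/-- countably many irrational algebraic numbers -/
lemma alg_countable : {y : ℝ | IsAlgebraic ℚ y ∧ Irrational y}.Countable :=
  (Algebraic.countable ℚ ℝ).mono fun _ hy => hy.1

end Pool.Agent.H607.Mix
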