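import Pool.Agent.H607.Mix.Gen
import Pool.Agent.H607.Weyl
import Mathlib

/-!
# Equidistribution along products of radices and digits
-/

set_option autoImplicit false

namespace Pool.Agent.H607.Mix

open Finset Filter Topology
open Pool.Agent.W206.ND (ee)
open Pool.Agent.H607

/-- Weyl's criterion for boxes along a sequence of multipliers -/
theorem boxes (k : ℕ) (x : Fin k → ℝ) (P : ℕ → ℝ)
    (h : ∀ h : Fin k → ℤ, h ≠ 0 → Tendsto (fun N : ℕ =>
      SS (fun n => (∑ j, (h j : ℝ) * x j) * P n) N / (N : ℂ)) atTop (𝓝 0))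
    (a c : Fin k → ℝ) (hac : ∀ j, 0 ≤ a j ∧ a j ≤ c j ∧ c j ≤ 1) :
    Tendsto (fun N : ℕ => (((range N).filter
      (fun n => ∀ j, a j ≤ Int.fract (x j * P n) ∧ Int.fract (x j * P n) < c j)).card : ℝ) / N)
      atTop (𝓝 (∏ j, (c j - a j))) := by
  refine Pool.Agent.W162.ND.WB.main Pool.Agent.W206.ND.AP.main k (fun n j => x j * P n) ?_ a c hac
  intro g hg
  refine (h g hg).congr fun N => ?_
  unfold SS
  congr 1
  refine sum_congr rfl fun n _ => ?_
  congr 1
  beta_reduce
  rw [sum_mul]
  exact sum_congr rfl fun j _ => by ring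

/-- the digit matrices -/
theorem digits (b : ℕ) (hb : 2 ≤ b) (q : ℕ → ℕ)
    (hq : Tendsto (fun N : ℕ => (((range N).filter fun n => q n ≠ b).card : ℝ) / N) atTop (𝓝 0))
    (k : ℕ) (x : Fin k → ℝ)
    (h : ∀ a c : Fin k → ℝ, (∀ j, 0 ≤ a j ∧ a j ≤ c j ∧ c j ≤ 1) →
      Tendsto (fun N : ℕ => (((range N).filter (fun n => ∀ j,
        a j ≤ Int.fract (x j * ∏ i ∈ range n, (q i : ℝ)) ∧
        Int.fract (x j * ∏ i ∈ range n, (q i : ℝ)) < c j)).card : ℝ) / N)
        atTop (𝓝 (∏ j, (c j - a j))))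
    (m : ℕ) (D : Fin k → Fin m → Fin b) :
    Tendsto (fun N : ℕ => (((range N).filter (fun n => ∀ (j : Fin k) (t : Fin m),
      ⌊x j * ∏ i ∈ range (n + t + 1), (q i : ℝ)⌋ % (q (n + t) : ℤ) = ((D j t : ℕ) : ℤ))).card : ℝ) / N)
      atTop (𝓝 (1 / (b : ℝ) ^ (m * k))) := by
  classical
  obtain ⟨a, ha, hbox⟩ := Pool.Agent.W92.ND.DM.main Pool.Agent.W856.ND.DG.main b k m D hb
  have hb0 : (0 : ℝ) < b := by exact_mod_cast (by omega : 0 < b)
  have hbm : (0 : ℝ) < 1 / (b : ℝ) ^ m := by positivity
  have h1 := h a (fun j => a j + 1 / (b : ℝ) ^ m) (fun j => ⟨(ha j).1, by linarith, (ha j).2⟩)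
  have hprod : ∏ j : Fin k, ((a j + 1 / (b : ℝ) ^ m) - a j) = 1 / (b : ℝ) ^ (m * k) := by
    have e : ∀ j : Fin k, (a j + 1 / (b : ℝ) ^ m) - a j = 1 / (b : ℝ) ^ m := fun j => by ring
    rw [prod_congr rfl fun j _ => e j, prod_const, card_univ,
      Fintype.card_fin, one_div_pow, ← pow_mul]
  rw [hprod] at h1
  -- away from the windows with an exceptional radix the two conditions agree
  have hkey : ∀ n, (∀ t < m, q (n + t) = b) → ((∀ (j : Fin k) (t : Fin m),
      ⌊x j * ∏ i ∈ range (n + t + 1), (q i : ℝ)⌋ % (q (n + t) : ℤ) = ((D j t : ℕ) : ℤ)) ↔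
      ∀ j, a j ≤ Int.fract (x j * ∏ i ∈ range n, (q i : ℝ)) ∧
        Int.fract (x j * ∏ i ∈ range n, (q i : ℝ)) < a j + 1 / (b : ℝ) ^ m) := by
    intro n hn
    have h2 : ∀ t ≤ m, ∏ i ∈ range (n + t), (q i : ℝ) = (∏ i ∈ range n, (q i : ℝ)) * (b : ℝ) ^ t := by
      intro t
      induction t with
      | zero => simp
      | succ t ih =>
        intro ht
        rw [← add_assoc, prod_range_succ, ih (by omega), hn t (by omega), pow_succ]
        ring
    have h3 := hbox (fun j => x j * ∏ i ∈ range n, (q i : ℝ)) 0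
    simp only [pow_zero, mul_one] at h3
    rw [← h3]
    refine forall_congr' fun j => forall_congr' fun t => ?_
    have h4 := h2 (t + 1) (by omega)
    rw [← add_assoc] at h4
    rw [h4, hn t t.2, ← mul_assoc, zero_add, add_comm 1 (t : ℕ)]
  -- the difference of the counts
  have hdiff : ∀ N : ℕ, |((((range N).filter (fun n => ∀ (j : Fin k) (t : Fin m),
      ⌊x j * ∏ i ∈ range (n + t + 1), (q i : ℝ)⌋ % (q (n + t) : ℤ) = ((D j t : ℕ) : ℤ))).card : ℕ) : ℝ) -
      ((((range N).filter (fun n => ∀ j, a j ≤ Int.fract (x j * ∏ i ∈ range n, (q i : ℝ)) ∧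
        Int.fract (x j * ∏ i ∈ range n, (q i : ℝ)) < a j + 1 / (b : ℝ) ^ m)).card : ℕ) : ℝ)| ≤
      m * (((range N).filter fun n => q n ≠ b).card + m) := by
    intro N
    set A := (range N).filter (fun n => ∀ (j : Fin k) (t : Fin m),
      ⌊x j * ∏ i ∈ range (n + t + 1), (q i : ℝ)⌋ % (q (n + t) : ℤ) = ((D j t : ℕ) : ℤ)) with hA
    set B := (range N).filter (fun n => ∀ j, a j ≤ Int.fract (x j * ∏ i ∈ range n, (q i : ℝ)) ∧
        Int.fract (x j * ∏ i ∈ range n, (q i : ℝ)) < a j + 1 / (b : ℝ) ^ m) with hB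
    set W := (range m).biUnion (fun t => ((range (N + m)).filter fun n => q n ≠ b).image (fun n => n - t))
      with hW
    have hWc : W.card ≤ m * (((range N).filter fun n => q n ≠ b).card + m) := by
      refine (card_biUnion_le).trans ?_
      calc ∑ t ∈ range m, (((range (N + m)).filter fun n => q n ≠ b).image (fun n => n - t)).card ≤
          ∑ t ∈ range m, (((range N).filter fun n => q n ≠ b).card + m) := by
            refine sum_le_sum fun t _ => card_image_le.trans ?_
            have : (range (N + m)).filter (fun n => q n ≠ b) ⊆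
                (range N).filter (fun n => q n ≠ b) ∪ Ico N (N + m) := by
              intro i hi
              rw [mem_filter, mem_range] at hi
              rw [mem_union, mem_filter, mem_range, mem_Ico]
              rcases lt_or_ge i N with h | h
              · exact Or.inl ⟨h, hi.2⟩
              · exact Or.inr ⟨h, hi.1⟩
            refine (card_le_card this).trans ((card_union_le _ _).trans ?_)
            rw [Nat.card_Ico]
            omega
        _ = _ := by rw [sum_const, card_range, smul_eq_mul]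
    have hsub : ∀ n ∈ range N, n ∉ W → (n ∈ A ↔ n ∈ B) := by
      intro n hn hnW
      rw [hA, hB, mem_filter, mem_filter]
      have : ∀ t < m, q (n + t) = b := by
        intro t ht
        by_contra hne
        apply hnW
        rw [hW, mem_biUnion]
        refine ⟨t, mem_range.2 ht, ?_⟩
        rw [mem_image]
        refine ⟨n + t, ?_, by omega⟩
        rw [mem_filter, mem_range]
        have := mem_range.1 hn
        exact ⟨by omega, hne⟩
      rw [hkey n this]
    have h5 : A ⊆ B ∪ W := by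
      intro n hn
      rw [mem_union]
      by_cases hw : n ∈ W
      · exact Or.inr hw
      · exact Or.inl ((hsub n (mem_filter.1 hn).1 hw).1 hn)
    have h6 : B ⊆ A ∪ W := by
      intro n hn
      rw [mem_union]
      by_cases hw : n ∈ W
      · exact Or.inr hw
      · exact Or.inl ((hsub n (mem_filter.1 hn).1 hw).2 hn)
    have h7 := (card_le_card h5).trans (card_union_le _ _)
    have h8 := (card_le_card h6).trans (card_union_le _ _)
    have h7' : (A.card : ℝ) ≤ B.card + W.card := by exact_mod_cast h7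
    have h8' : (B.card : ℝ) ≤ A.card + W.card := by exact_mod_cast h8
    have h9 : (W.card : ℝ) ≤ m * (((range N).filter fun n => q n ≠ b).card + m) := by exact_mod_cast hWc
    rw [abs_le]
    constructor <;> linarith
  have hz : Tendsto (fun N : ℕ => (m : ℝ) * ((((range N).filter fun n => q n ≠ b).card : ℝ) / N + m / N))
      atTop (𝓝 (m * (0 + 0))) :=
    (hq.add (tendsto_const_div_atTop_nhds_zero_nat (m : ℝ))).const_mul _
  rw [add_zero, mul_zero] at hz
  have hd : Tendsto (fun N : ℕ => ((((range N).filter (fun n => ∀ (j : Fin k) (t : Fin m),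
      ⌊x j * ∏ i ∈ range (n + t + 1), (q i : ℝ)⌋ % (q (n + t) : ℤ) = ((D j t : ℕ) : ℤ))).card : ℕ) : ℝ) / N -
      ((((range N).filter (fun n => ∀ j, a j ≤ Int.fract (x j * ∏ i ∈ range n, (q i : ℝ)) ∧
        Int.fract (x j * ∏ i ∈ range n, (q i : ℝ)) < a j + 1 / (b : ℝ) ^ m)).card : ℕ) : ℝ) / N)
      atTop (𝓝 0) := by
    refine squeeze_zero_norm (fun N => ?_) hz
    rw [← sub_div, Real.norm_eq_abs, abs_div, Nat.abs_cast, ← add_div, mul_div_assoc']
    exact div_le_div_of_nonneg_right (hdiff N) (Nat.cast_nonneg _)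
  have h10 := hd.add h1
  rw [zero_add] at h10
  refine h10.congr fun N => ?_
  ring

end Pool.Agent.H607.Mix
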