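import Pool.Agent.H607.AS
import Mathlib

/-!
# Almost sure convergence of the averages of exponential sums along random sequences
-/

set_option autoImplicit false

namespace Pool.Agent.H607.Mix

open Finset Filter Topology MeasureTheory
open Pool.Agent.W206.ND (ee)
open Pool.Agent.H607

/-- exponential sum of a sequence -/
noncomputable def SS (u : ℕ → ℝ) (N : ℕ) : ℂ := ∑ n ∈ range N, ee (u n)

lemma ss_succ (u : ℕ → ℝ) (N : ℕ) : SS u (N + 1) = SS u N + ee (u N) := by
  unfold SS
  rw [sum_range_succ]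

lemma ss_norm_le (u : ℕ → ℝ) (N : ℕ) : ‖SS u N‖ ≤ N := by
  unfold SS
  refine (norm_sum_le _ _).trans ?_
  simp [ee_norm]

/-- from a sparse sequence to all `N` -/
lemma ss_tendsto (u : ℕ → ℝ)
    (h : ∀ k : ℕ, Tendsto (fun j : ℕ => ‖SS u ⌊(1 + 1 / ((k : ℝ) + 1)) ^ j⌋₊‖ /
      (⌊(1 + 1 / ((k : ℝ) + 1)) ^ j⌋₊ : ℝ)) atTop (𝓝 0)) :
    Tendsto (fun N : ℕ => SS u N / (N : ℂ)) atTop (𝓝 0) := by
  have hc1 : ∀ k : ℕ, 1 < 1 + 1 / ((k : ℝ) + 1) := fun k => by
    have : 0 < 1 / ((k : ℝ) + 1) := by positivity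
    linarith
  have hclim : Tendsto (fun k : ℕ => 1 + 1 / ((k : ℝ) + 1)) atTop (𝓝 1) := by
    have := tendsto_one_div_add_atTop_nhds_zero_nat (𝕜 := ℝ)
    simpa using this.const_add 1
  have hN : ∀ k : ℕ, Tendsto (fun j : ℕ => (⌊(1 + 1 / ((k : ℝ) + 1)) ^ j⌋₊ : ℕ)) atTop atTop := by
    intro k
    exact tendsto_nat_floor_atTop.comp (tendsto_pow_atTop_atTop_of_one_lt (hc1 k))
  -- a real part with partial sums growing by at least `-1`
  have key : ∀ v : ℕ → ℝ, (∀ N, v N - 1 ≤ v (N + 1)) → (∀ N, |v N| ≤ ‖SS u N‖) →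
      Tendsto (fun N : ℕ => v N / (N : ℝ)) atTop (𝓝 0) := by
    intro v hv hvb
    have h1 := tendsto_div_of_monotone_of_tendsto_div_floor_pow (fun N => (N : ℝ) + v N) 1
      (by
        apply monotone_nat_of_le_succ
        intro N
        have := hv N
        push_cast
        linarith)
      (fun k : ℕ => 1 + 1 / ((k : ℝ) + 1)) hc1 hclim (by
        intro k
        have h2 : Tendsto (fun j : ℕ => 1 + v ⌊(1 + 1 / ((k : ℝ) + 1)) ^ j⌋₊ /
            (⌊(1 + 1 / ((k : ℝ) + 1)) ^ j⌋₊ : ℝ)) atTop (𝓝 (1 + 0)) := by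
          refine tendsto_const_nhds.add ?_
          refine squeeze_zero_norm (fun j => ?_) (h k)
          rw [Real.norm_eq_abs, abs_div, Nat.abs_cast]
          gcongr
          exact hvb _
        rw [add_zero] at h2
        refine h2.congr' ?_
        filter_upwards [(hN k).eventually (eventually_gt_atTop 0)] with j hj
        have : ((⌊(1 + 1 / ((k : ℝ) + 1)) ^ j⌋₊ : ℕ) : ℝ) ≠ 0 := by exact_mod_cast hj.ne'
        rw [add_div, div_self this])
    have h3 : Tendsto (fun N : ℕ => ((N : ℝ) + v N) / N - 1) atTop (𝓝 (1 - 1)) :=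
      h1.sub tendsto_const_nhds
    rw [sub_self] at h3
    refine h3.congr' ?_
    filter_upwards [eventually_gt_atTop 0] with N hN0
    have : (N : ℝ) ≠ 0 := by exact_mod_cast hN0.ne'
    field_simp
    ring
  have hre := key (fun N => (SS u N).re) (fun N => by
      rw [ss_succ, Complex.add_re]
      have := ee_re_ge (u N)
      linarith) (fun N => Complex.abs_re_le_norm _)
  have him := key (fun N => (SS u N).im) (fun N => by
      rw [ss_succ, Complex.add_im]
      have := ee_im_ge (u N)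
      linarith) (fun N => Complex.abs_im_le_norm _)
  have h4 : Tendsto (fun N : ℕ => (((SS u N).re / N : ℝ) : ℂ) + (((SS u N).im / N : ℝ) : ℂ) * Complex.I)
      atTop (𝓝 (((0 : ℝ) : ℂ) + ((0 : ℝ) : ℂ) * Complex.I)) := by
    refine Tendsto.add ?_ (Tendsto.mul_const _ ?_)
    · exact (Complex.continuous_ofReal.tendsto 0).comp hre
    · exact (Complex.continuous_ofReal.tendsto 0).comp him
  simp only [Complex.ofReal_zero, zero_mul, add_zero] at h4
  refine h4.congr fun N => ?_
  conv_rhs => rw [← Complex.re_add_im (SS u N)]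
  push_cast
  ring

section

variable {Ω : Type*} [MeasurableSpace Ω] {μ : Measure Ω} [IsProbabilityMeasure μ]

lemma ss_measurable (u : ℕ → Ω → ℝ) (hu : ∀ n, Measurable (u n)) (N : ℕ) :
    Measurable (fun ω => SS (fun n => u n ω) N) := by
  unfold SS
  exact Finset.measurable_sum _ fun n _ => ee_continuous.measurable.comp (hu n)

/-- almost sure convergence from the second moments -/
theorem as_gen (u : ℕ → Ω → ℝ) (hu : ∀ n, Measurable (u n)) (C : ℝ)
    (h : ∀ᶠ N : ℕ in atTop, ∫ ω, ‖SS (fun n => u n ω) N‖ ^ 2 ∂μ ≤ C * ((N : ℝ) ^ 2 / (Real.log N) ^ 2)) :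
    ∀ᵐ ω ∂μ, Tendsto (fun N : ℕ => SS (fun n => u n ω) N / (N : ℂ)) atTop (𝓝 0) := by
  have hc1 : ∀ k : ℕ, 1 < 1 + 1 / ((k : ℝ) + 1) := fun k => by
    have : 0 < 1 / ((k : ℝ) + 1) := by positivity
    linarith
  have hmain : ∀ k : ℕ, ∀ᵐ ω ∂μ, Tendsto (fun j : ℕ =>
      ‖SS (fun n => u n ω) ⌊(1 + 1 / ((k : ℝ) + 1)) ^ j⌋₊‖ /
      (⌊(1 + 1 / ((k : ℝ) + 1)) ^ j⌋₊ : ℝ)) atTop (𝓝 0) := by
    intro k
    set a := 1 + 1 / ((k : ℝ) + 1) with ha
    have ha1 : 1 < a := hc1 k
    have hNt : Tendsto (fun j : ℕ => (⌊a ^ j⌋₊ : ℕ)) atTop atTop :=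
      tendsto_nat_floor_atTop.comp (tendsto_pow_atTop_atTop_of_one_lt ha1)
    have hla : 0 < Real.log a := Real.log_pos ha1
    have h1 := ae_tendsto_zero (μ := μ)
      (fun j ω => (‖SS (fun n => u n ω) ⌊a ^ j⌋₊‖ / (⌊a ^ j⌋₊ : ℝ)) ^ 2)
      (fun j => by
        have := ss_measurable u hu ⌊a ^ j⌋₊
        fun_prop)
      (fun j ω => by positivity)
      (fun j => by
        refine Integrable.mono' (integrable_const (1 : ℝ)) ?_ (ae_of_all _ fun ω => ?_)
        · have := ss_measurable u hu ⌊a ^ j⌋₊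
          exact Measurable.aestronglyMeasurable (by fun_prop)
        · rw [Real.norm_of_nonneg (by positivity)]
          have h2 := ss_norm_le (fun n => u n ω) ⌊a ^ j⌋₊
          have h3 : ‖SS (fun n => u n ω) ⌊a ^ j⌋₊‖ / (⌊a ^ j⌋₊ : ℝ) ≤ 1 :=
            div_le_one_of_le₀ h2 (Nat.cast_nonneg _)
          have h4 : 0 ≤ ‖SS (fun n => u n ω) ⌊a ^ j⌋₊‖ / (⌊a ^ j⌋₊ : ℝ) := by positivity
          nlinarith)
      (fun j => |C| * 4 / (Real.log a) ^ 2 * (1 / (j : ℝ) ^ 2))
      (by
        have hfl : ∀ᶠ j : ℕ in atTop, Real.log a / 2 * j ≤ Real.log (⌊a ^ j⌋₊ : ℝ) := by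
          have h5 : ∀ᶠ j : ℕ in atTop, Real.log 2 ≤ Real.log a / 2 * j := by
            have : Tendsto (fun j : ℕ => Real.log a / 2 * (j : ℝ)) atTop atTop :=
              Tendsto.const_mul_atTop (by positivity) tendsto_natCast_atTop_atTop
            exact this.eventually_ge_atTop _
          filter_upwards [h5, hNt.eventually (eventually_ge_atTop 1)] with j hj hj1
          have h6 : a ^ j ≤ 2 * (⌊a ^ j⌋₊ : ℝ) := by
            have h7 := Nat.lt_floor_add_one (a ^ j)
            have h8 : (1 : ℝ) ≤ (⌊a ^ j⌋₊ : ℝ) := by exact_mod_cast hj1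
            linarith
          have h9 : Real.log (a ^ j) ≤ Real.log 2 + Real.log (⌊a ^ j⌋₊ : ℝ) := by
            rw [← Real.log_mul (by norm_num) (by
              have : (1 : ℝ) ≤ (⌊a ^ j⌋₊ : ℝ) := by exact_mod_cast hj1
              positivity)]
            exact Real.log_le_log (by positivity) h6
          rw [Real.log_pow] at h9
          nlinarith
        filter_upwards [hNt.eventually h, hNt.eventually (eventually_ge_atTop 1), hfl,
          eventually_ge_atTop 1] with j hj hj1 hjl hj0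
        have hNpos : (0 : ℝ) < (⌊a ^ j⌋₊ : ℝ) := by
          have : (1 : ℝ) ≤ (⌊a ^ j⌋₊ : ℝ) := by exact_mod_cast hj1
          linarith
        have hj0' : (1 : ℝ) ≤ (j : ℝ) := by exact_mod_cast hj0
        simp only [div_pow]
        rw [integral_div]
        have hlog : 0 < Real.log a / 2 * j := by positivity
        calc (∫ ω, ‖SS (fun n => u n ω) ⌊a ^ j⌋₊‖ ^ 2 ∂μ) / (⌊a ^ j⌋₊ : ℝ) ^ 2
            ≤ (C * ((⌊a ^ j⌋₊ : ℝ) ^ 2 / (Real.log (⌊a ^ j⌋₊ : ℝ)) ^ 2)) / (⌊a ^ j⌋₊ : ℝ) ^ 2 := by gcongr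
          _ = C * (1 / (Real.log (⌊a ^ j⌋₊ : ℝ)) ^ 2) := by field_simp
          _ ≤ |C| * (1 / (Real.log (⌊a ^ j⌋₊ : ℝ)) ^ 2) := by
              gcongr
              exact le_abs_self C
          _ ≤ |C| * (1 / (Real.log a / 2 * j) ^ 2) := by
              gcongr
          _ = |C| * 4 / (Real.log a) ^ 2 * (1 / (j : ℝ) ^ 2) := by
              field_simp
              ring)
      ((Real.summable_one_div_nat_pow.2 (by norm_num)).mul_left _)
    filter_upwards [h1] with ω hω
    have h2 := hω.sqrt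
    rw [Real.sqrt_zero] at h2
    refine h2.congr fun j => ?_
    rw [Real.sqrt_sq (by positivity)]
  filter_upwards [ae_all_iff.2 hmain] with ω hω
  exact ss_tendsto (fun n => u n ω) hω

/-- the second moment from the correlations -/
lemma second_le (u : ℕ → Ω → ℝ) (hu : ∀ n, Measurable (u n)) (c : ℕ → ℝ) (hc0 : ∀ n, 0 ≤ c n)
    (h : ∀ n' : ℕ, ∀ n < n', ‖∫ ω, ee (u n' ω - u n ω) ∂μ‖ ≤ c n') (N : ℕ) :
    ∫ ω, ‖SS (fun n => u n ω) N‖ ^ 2 ∂μ ≤ N + 2 * ∑ n' ∈ range N, n' * c n' := by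
  induction N with
  | zero => simp [SS]
  | succ N ih =>
    have h1 : ∀ ω, ‖SS (fun n => u n ω) (N + 1)‖ ^ 2 = ‖SS (fun n => u n ω) N‖ ^ 2 + 1 +
        2 * ∑ n ∈ range N, (ee (u N ω - u n ω)).re := by
      intro ω
      rw [ss_succ]
      have e1 : ‖SS (fun n => u n ω) N + ee (u N ω)‖ ^ 2 = ‖SS (fun n => u n ω) N‖ ^ 2 +
          ‖ee (u N ω)‖ ^ 2 + 2 * (ee (u N ω) * (starRingEnd ℂ) (SS (fun n => u n ω) N)).re := by
        rw [← Complex.normSq_eq_norm_sq, ← Complex.normSq_eq_norm_sq, ← Complex.normSq_eq_norm_sq,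
          add_comm, Complex.normSq_add]
        ring
      rw [e1, ee_norm, one_pow]
      congr 2
      unfold SS
      rw [map_sum, mul_sum, Complex.re_sum]
      refine sum_congr rfl fun n _ => ?_
      rw [ee_conj, ← ee_add]
      congr 2
    have hm : ∀ n n', Measurable (fun ω => ee (u n' ω - u n ω)) := fun n n' =>
      ee_continuous.measurable.comp ((hu n').sub (hu n))
    have hi : ∀ n n', Integrable (fun ω => ee (u n' ω - u n ω)) μ := fun n n' =>
      Integrable.mono' (integrable_const (1 : ℝ)) (hm n n').aestronglyMeasurable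
        (ae_of_all _ fun ω => by rw [ee_norm])
    have hir : ∀ n n', Integrable (fun ω => (ee (u n' ω - u n ω)).re) μ := fun n n' => (hi n n').re
    have his : Integrable (fun ω => ‖SS (fun n => u n ω) N‖ ^ 2) μ := by
      refine Integrable.mono' (integrable_const ((N : ℝ) ^ 2)) ?_ (ae_of_all _ fun ω => ?_)
      · have := ss_measurable u hu N
        exact Measurable.aestronglyMeasurable (by fun_prop)
      · rw [Real.norm_of_nonneg (by positivity)]
        have := ss_norm_le (fun n => u n ω) N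
        gcongr
    simp only [h1]
    have his1 : Integrable (fun ω => ‖SS (fun n => u n ω) N‖ ^ 2 + 1) μ := his.add (integrable_const _)
    have his2 : Integrable (fun ω => 2 * ∑ n ∈ range N, (ee (u N ω - u n ω)).re) μ :=
      (integrable_finsetSum _ fun n _ => hir n N).const_mul _
    rw [integral_add his1 his2,
      integral_add his (integrable_const _), integral_const_mul, integral_finsetSum _ fun n _ => hir n N]
    simp only [integral_const, probReal_univ, smul_eq_mul, mul_one]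
    have h2 : ∀ n ∈ range N, ∫ ω, (ee (u N ω - u n ω)).re ∂μ ≤ c N := by
      intro n hn
      have e2 : ∫ ω, (ee (u N ω - u n ω)).re ∂μ = (∫ ω, ee (u N ω - u n ω) ∂μ).re :=
        integral_re (hi n N)
      rw [e2]
      exact (Complex.re_le_norm _).trans (h N n (mem_range.1 hn))
    have h3 := sum_le_sum h2
    rw [sum_const, card_range, nsmul_eq_mul] at h3
    rw [sum_range_succ]
    push_cast
    linarith

/-- almost sure convergence from the correlations -/
theorem as_corr (u : ℕ → Ω → ℝ) (hu : ∀ n, Measurable (u n))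
    (h : ∀ᶠ n' : ℕ in atTop, ∀ n < n', ‖∫ ω, ee (u n' ω - u n ω) ∂μ‖ ≤ 1 / n') :
    ∀ᵐ ω ∂μ, Tendsto (fun N : ℕ => SS (fun n => u n ω) N / (N : ℂ)) atTop (𝓝 0) := by
  obtain ⟨M, hM⟩ := eventually_atTop.1 h
  have hnorm : ∀ n n', ‖∫ ω, ee (u n' ω - u n ω) ∂μ‖ ≤ 1 := fun n n' => by
    refine (norm_integral_le_of_norm_le_const (ae_of_all _ fun ω => (ee_norm _).le)).trans ?_
    simp
  have h1 : ∀ N : ℕ, ∫ ω, ‖SS (fun n => u n ω) N‖ ^ 2 ∂μ ≤ 3 * N + 2 * (M : ℝ) ^ 2 := by
    intro N
    have h2 := second_le (μ := μ) u hu (fun n' => if n' < M then 1 else 1 / (n' : ℝ))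
      (fun n => by split_ifs <;> positivity)
      (fun n' n hn => by
        split_ifs with hlt
        · exact hnorm n n'
        · exact hM n' (by omega) n hn) N
    refine h2.trans ?_
    have h3 : ∑ n' ∈ range N, (n' : ℝ) * (if n' < M then 1 else 1 / (n' : ℝ)) ≤
        ∑ n' ∈ range N, (1 + if n' < M then (M : ℝ) else 0) := by
      refine sum_le_sum fun n' _ => ?_
      split_ifs with hlt
      · have : (n' : ℝ) ≤ M := by exact_mod_cast hlt.le
        linarith
      · rcases Nat.eq_zero_or_pos n' with h0 | h0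
        · subst h0; simp
        · have : (n' : ℝ) ≠ 0 := by exact_mod_cast h0.ne'
          rw [mul_one_div, div_self this]
          linarith
    have h4 : ∑ n' ∈ range N, (1 + if n' < M then (M : ℝ) else 0) ≤ N + (M : ℝ) ^ 2 := by
      rw [sum_add_distrib, sum_const, card_range, nsmul_eq_mul, mul_one, ← sum_filter, sum_const,
        nsmul_eq_mul]
      have h5 : (((range N).filter fun n' => n' < M).card : ℝ) ≤ M := by
        have : ((range N).filter fun n' => n' < M) ⊆ range M := fun i hi => by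
          rw [mem_filter] at hi
          exact mem_range.2 hi.2
        have := card_le_card this
        rw [card_range] at this
        exact_mod_cast this
      have h6 : (0 : ℝ) ≤ M := Nat.cast_nonneg _
      nlinarith
    linarith
  refine as_gen u hu 4 ?_
  have hlog : ∀ᶠ N : ℕ in atTop, (Real.log N) ^ 2 ≤ N := by
    have h2 := (Real.isLittleO_pow_log_id_atTop (n := 2)).def (show (0 : ℝ) < 1 by norm_num)
    filter_upwards [tendsto_natCast_atTop_atTop.eventually h2] with N hN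
    rw [Real.norm_eq_abs, Real.norm_eq_abs, one_mul, id, Nat.abs_cast] at hN
    exact (le_abs_self _).trans hN
  filter_upwards [hlog, eventually_ge_atTop (2 * M ^ 2 + 2)] with N hN hN2
  refine (h1 N).trans ?_
  have h2 : (2 * (M : ℝ) ^ 2 + 2) ≤ N := by exact_mod_cast hN2
  have h3 : (1 : ℝ) < N := by nlinarith [sq_nonneg (M : ℝ)]
  have h4 : 0 < (Real.log N) ^ 2 := by
    have := Real.log_pos h3
    positivity
  have h5 : (N : ℝ) ≤ (N : ℝ) ^ 2 / (Real.log N) ^ 2 := by
    rw [le_div_iff₀ h4]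
    nlinarith
  linarith

end

end Pool.Agent.H607.Mix
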