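import Pool.Agent.H607.Mix.Rand
import Mathlib

/-!
# The exceptional places and the random primes
-/

set_option autoImplicit false

namespace Pool.Agent.H607.Mix

open Finset Filter Topology

/-- many primes below powers of two -/
lemma prime_lower (k : ℕ) (hk : 1 ≤ k) : 2 ^ k ≤ k * (2 + Nat.count Nat.Prime (2 ^ k)) := by
  obtain ⟨j, rfl⟩ : ∃ j, k = j + 1 := ⟨k - 1, by omega⟩
  set n := 2 ^ j with hn
  have hn0 : 0 < n := by positivity
  have h2n : 2 * n = 2 ^ (j + 1) := by rw [hn, pow_succ]; ring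
  have h1 := Nat.four_pow_le_two_mul_self_mul_centralBinom n hn0
  have h2 : n.centralBinom ≤ (2 * n) ^ (Nat.count Nat.Prime (2 * n + 1)) := by
    rw [← Nat.prod_pow_factorization_centralBinom n]
    calc ∏ p ∈ range (2 * n + 1), p ^ n.centralBinom.factorization p ≤
        ∏ p ∈ range (2 * n + 1), (if p.Prime then 2 * n else 1) := by
          apply prod_le_prod' fun p _ => ?_
          by_cases hp : p.Prime
          · rw [if_pos hp]
            exact Nat.pow_factorization_choose_le (by omega)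
          · rw [if_neg hp, Nat.factorization_eq_zero_of_not_prime _ hp, pow_zero]
      _ = (2 * n) ^ (Nat.count Nat.Prime (2 * n + 1)) := by
          rw [← prod_filter, prod_const, Nat.count_eq_card_filter_range]
  have h3 : Nat.count Nat.Prime (2 * n + 1) ≤ Nat.count Nat.Prime (2 * n) + 1 := by
    rw [Nat.count_succ]
    split_ifs <;> omega
  have h4 : 2 ^ (2 ^ (j + 1)) ≤ 2 ^ ((j + 1) * (2 + Nat.count Nat.Prime (2 ^ (j + 1)))) := by
    calc 2 ^ (2 ^ (j + 1)) = 4 ^ n := by
          rw [← h2n, pow_mul]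
          norm_num
      _ ≤ 2 * n * n.centralBinom := h1
      _ ≤ 2 * n * (2 * n) ^ (Nat.count Nat.Prime (2 * n + 1)) := Nat.mul_le_mul_left _ h2
      _ ≤ 2 * n * (2 * n) ^ (Nat.count Nat.Prime (2 * n) + 1) := by
          apply Nat.mul_le_mul_left
          exact Nat.pow_le_pow_right (by omega) h3
      _ = (2 * n) ^ (2 + Nat.count Nat.Prime (2 * n)) := by ring
      _ = 2 ^ ((j + 1) * (2 + Nat.count Nat.Prime (2 ^ (j + 1)))) := by
          rw [h2n, ← pow_mul]
  exact (Nat.pow_le_pow_iff_right (by norm_num)).1 h4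

/-- parameters: the base `b`, the exponent `V + 2`, the spacing `K`, the threshold `s₀` -/
structure Par where
  b : ℕ
  V : ℕ
  K : ℕ
  s₀ : ℕ
  hb : 2 ≤ b
  hV : 1 ≤ V
  hK : 1 ≤ K
  hs₀ : 4 ≤ s₀
  hs : ∀ u, s₀ ≤ u → 2 * (V + 2) * u ≤ 2 ^ u

variable (p : Par)

/-- the exceptional places -/
def Exc (n : ℕ) : Prop := p.s₀ ≤ n.size ∧ p.K * n.size ∣ n

instance : DecidablePred (Exc p) := fun n => by unfold Exc; infer_instance

/-- the number of choices -/
def wt (n : ℕ) : ℕ := if Exc p n then 2 ^ (p.V * n.size) else 1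

instance (n : ℕ) : NeZero (wt p n) := ⟨by unfold wt; split_ifs <;> positivity⟩

/-- the factors -/
noncomputable def fac (n : ℕ) (a : Fin (wt p n)) : ℕ :=
  if Exc p n then Nat.nth Nat.Prime (n * wt p n + a) else p.b

lemma exists_par (b V K : ℕ) (hb : 2 ≤ b) (hV : 1 ≤ V) (hK : 1 ≤ K) :
    ∃ p : Par, p.b = b ∧ p.V = V ∧ p.K = K := by
  have h : ∀ᶠ u : ℕ in atTop, 2 * (V + 2) * u ≤ 2 ^ u := by
    have h1 := tendsto_pow_const_div_const_pow_of_one_lt 1 (show (1 : ℝ) < 2 by norm_num)
    have h2 := h1.eventually_le_const (show (0 : ℝ) < 1 / (2 * (V + 2)) by positivity)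
    filter_upwards [h2] with u hu
    rw [pow_one, div_le_div_iff₀ (by positivity) (by positivity), one_mul] at hu
    have h3 : (2 * (V + 2) * u : ℝ) ≤ 2 ^ u := by linarith
    exact_mod_cast h3
  obtain ⟨u₁, hu₁⟩ := eventually_atTop.1 h
  exact ⟨⟨b, V, K, max u₁ 4, hb, hV, hK, le_max_right _ _,
    fun u hu => hu₁ u ((le_max_left _ _).trans hu)⟩, rfl, rfl, rfl⟩

lemma idx_lt {n : ℕ} (hn : Exc p n) (a : Fin (wt p n)) :
    n * wt p n + a < Nat.count Nat.Prime (2 ^ ((p.V + 2) * n.size)) := by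
  have hw : wt p n = 2 ^ (p.V * n.size) := by unfold wt; rw [if_pos hn]
  have h1 : n + 1 ≤ 2 ^ n.size := Nat.lt_size_self n
  have h2 : (a : ℕ) < 2 ^ (p.V * n.size) := by
    have := a.2
    omega
  have hs := p.hs n.size hn.1
  have hsz : 1 ≤ n.size := le_trans (by norm_num) (p.hs₀.trans hn.1)
  have h3 := prime_lower ((p.V + 2) * n.size) (by nlinarith)
  set c := Nat.count Nat.Prime (2 ^ ((p.V + 2) * n.size)) with hc
  have h4 : n * wt p n + a < 2 ^ ((p.V + 1) * n.size) := by
    have e0 : n * wt p n = n * 2 ^ (p.V * n.size) := by rw [hw]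
    calc n * wt p n + a < n * 2 ^ (p.V * n.size) + 2 ^ (p.V * n.size) := by omega
      _ = (n + 1) * 2 ^ (p.V * n.size) := by ring
      _ ≤ 2 ^ n.size * 2 ^ (p.V * n.size) := Nat.mul_le_mul_right _ h1
      _ = 2 ^ ((p.V + 1) * n.size) := by rw [← pow_add]; congr 1; ring
  refine h4.trans_le ?_
  by_contra hlt
  push Not at hlt
  -- `2 ^ ((V+2) s) ≤ (V+2) s (2 + c) < (V+2) s (2 · 2 ^ ((V+1) s)) ≤ 2 ^ s 2 ^ ((V+1) s)`
  have h5 : 2 + c < 2 * 2 ^ ((p.V + 1) * n.size) := by
    have h6 : 2 ^ 1 ≤ 2 ^ ((p.V + 1) * n.size) := Nat.pow_le_pow_right (by norm_num) (by nlinarith)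
    omega
  have h6 : (p.V + 2) * n.size * (2 + c) < (p.V + 2) * n.size * (2 * 2 ^ ((p.V + 1) * n.size)) :=
    Nat.mul_lt_mul_of_pos_left h5 (by positivity)
  have h7 : (p.V + 2) * n.size * (2 * 2 ^ ((p.V + 1) * n.size)) ≤ 2 ^ ((p.V + 2) * n.size) := by
    calc (p.V + 2) * n.size * (2 * 2 ^ ((p.V + 1) * n.size)) =
        (2 * (p.V + 2) * n.size) * 2 ^ ((p.V + 1) * n.size) := by ring
      _ ≤ 2 ^ n.size * 2 ^ ((p.V + 1) * n.size) := Nat.mul_le_mul_right _ hs
      _ = 2 ^ ((p.V + 2) * n.size) := by rw [← pow_add]; congr 1; ring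
  omega

lemma fac_prime {n : ℕ} (hn : Exc p n) (a : Fin (wt p n)) : (fac p n a).Prime := by
  unfold fac
  rw [if_pos hn]
  exact Nat.nth_mem_of_infinite Nat.infinite_setOfPred_prime _

lemma fac_lt {n : ℕ} (hn : Exc p n) (a : Fin (wt p n)) : fac p n a < 2 ^ ((p.V + 2) * n.size) := by
  unfold fac
  rw [if_pos hn]
  exact Nat.nth_lt_of_lt_count (idx_lt p hn a)

lemma fac_two_le (n : ℕ) (a : Fin (wt p n)) : 2 ≤ fac p n a := by
  by_cases hn : Exc p n
  · exact (fac_prime p hn a).two_le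
  · unfold fac
    rw [if_neg hn]
    exact p.hb

lemma wt_mono {m n : ℕ} (hm : Exc p m) (hn : Exc p n) (h : m ≤ n) : wt p m ≤ wt p n := by
  unfold wt
  rw [if_pos hm, if_pos hn]
  exact Nat.pow_le_pow_right (by norm_num) (Nat.mul_le_mul_left _ (Nat.size_le_size h))

lemma idx_inj {m n : ℕ} (hm : Exc p m) (hn : Exc p n) (a : Fin (wt p m)) (a' : Fin (wt p n))
    (h : m * wt p m + a = n * wt p n + a') : m = n := by
  by_contra hne
  rcases lt_or_gt_of_ne hne with hlt | hlt
  · have h1 := wt_mono p hm hn hlt.le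
    have h2 := a.2
    have h3 : (m + 1) * wt p m ≤ n * wt p n := Nat.mul_le_mul hlt h1
    have h4 : (m + 1) * wt p m = m * wt p m + wt p m := by ring
    omega
  · have h1 := wt_mono p hn hm hlt.le
    have h2 := a'.2
    have h3 : (n + 1) * wt p n ≤ m * wt p m := Nat.mul_le_mul hlt h1
    have h4 : (n + 1) * wt p n = n * wt p n + wt p n := by ring
    omega

/-- the product of the factors determines the factors -/
lemma inj (J : Finset ℕ) (hJ : ∀ i ∈ J, Exc p i) (ω ω' : ∀ i, Fin (wt p i))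
    (h : Q (wt p) (fac p) J ω = Q (wt p) (fac p) J ω') : ∀ i ∈ J, ω i = ω' i := by
  intro i hi
  have hp := fac_prime p (hJ i hi) (ω i)
  have h1 : fac p i (ω i) ∣ Q (wt p) (fac p) J ω' := by
    rw [← h]
    exact dvd_prod_of_mem (fun i => fac p i (ω i)) hi
  unfold Q at h1
  rw [Prime.dvd_finsetProd_iff hp.prime] at h1
  obtain ⟨j, hj, h2⟩ := h1
  have h3 := (Nat.prime_dvd_prime_iff_eq hp (fac_prime p (hJ j hj) (ω' j))).1 h2
  unfold fac at h3
  rw [if_pos (hJ i hi), if_pos (hJ j hj)] at h3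
  have h4 := Nat.nth_injective Nat.infinite_setOfPred_prime h3
  have h5 := idx_inj p (hJ i hi) (hJ j hj) _ _ h4
  subst h5
  have h6 : (ω i : ℕ) = ω' i := by omega
  exact Fin.ext h6

/-- the mass of a place -/
def ms (n : ℕ) : ℕ := if Exc p n then n.size else 0

lemma ms_zero {n : ℕ} (h : n.size < p.s₀) : ms p n = 0 := by
  unfold ms
  rw [if_neg]
  exact fun h' => absurd h'.1 (by omega)

/-- the mass of an interval of places -/
def U (a c : ℕ) : ℕ := ∑ i ∈ Ico a c, ms p i

/-- the exceptional places in an interval -/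
def E (a c : ℕ) : Finset ℕ := (Ico a c).filter (Exc p)

lemma U_eq (a c : ℕ) : U p a c = ∑ i ∈ E p a c, i.size := by
  unfold U E ms
  rw [sum_filter]

lemma U_add {a c d : ℕ} (h1 : a ≤ c) (h2 : c ≤ d) : U p a d = U p a c + U p c d := by
  unfold U
  exact (sum_Ico_consecutive _ h1 h2).symm

lemma Q_le (a c : ℕ) (ω : ∀ i, Fin (wt p i)) :
    Q (wt p) (fac p) (E p a c) ω ≤ 2 ^ ((p.V + 2) * U p a c) := by
  rw [U_eq, mul_sum, ← prod_pow_eq_pow_sum]
  unfold Q
  apply prod_le_prod' fun i hi => ?_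
  have hi' : Exc p i := (mem_filter.1 hi).2
  exact (fac_lt p hi' (ω i)).le

lemma wt_prod (a c : ℕ) : ∏ i ∈ E p a c, (1 / (wt p i : ℝ)) = 1 / 2 ^ (p.V * U p a c) := by
  rw [U_eq, mul_sum, ← prod_pow_eq_pow_sum, prod_div_distrib, prod_const_one]
  congr 1
  refine prod_congr rfl fun i hi => ?_
  have hi' : Exc p i := (mem_filter.1 hi).2
  unfold wt
  rw [if_pos hi']
  push_cast
  rfl

lemma size_block {i j : ℕ} (h1 : 2 ^ j ≤ i) (h2 : i < 2 ^ (j + 1)) : i.size = j + 1 := by
  apply le_antisymm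
  · exact Nat.size_le.2 h2
  · exact Nat.lt_size.2 h1

lemma U_bounds (j : ℕ) : ∀ n, n ≤ 2 ^ j → p.K * U p 0 n ≤ n + p.K * j ^ 2 ∧
    n ≤ p.K * U p 0 n + p.K * j ^ 2 + 2 ^ p.s₀ := by
  induction j with
  | zero =>
    intro n hn
    have h0 : U p 0 n = 0 := by
      unfold U
      apply sum_eq_zero
      intro i hi
      rw [mem_Ico] at hi
      have h1 : i = 0 := by rw [pow_zero] at hn; omega
      apply ms_zero
      rw [h1, Nat.size_zero]
      have := p.hs₀
      omega
    rw [h0]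
    have := Nat.one_le_two_pow (n := p.s₀)
    constructor
    · omega
    · rw [pow_zero] at hn; omega
  | succ j ih =>
    intro n hn
    rcases le_or_gt n (2 ^ j) with h | h
    · obtain ⟨h1, h2⟩ := ih n h
      have h3 : p.K * j ^ 2 ≤ p.K * (j + 1) ^ 2 := Nat.mul_le_mul_left _ (Nat.pow_le_pow_left (by omega) 2)
      constructor <;> omega
    · obtain ⟨h1, h2⟩ := ih (2 ^ j) le_rfl
      have h3 : U p 0 n = U p 0 (2 ^ j) + U p (2 ^ j) n := U_add p (Nat.zero_le _) h.le
      rcases lt_or_ge (j + 1) p.s₀ with hs | hs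
      · have h4 : U p (2 ^ j) n = 0 := by
          unfold U
          apply sum_eq_zero
          intro i hi
          rw [mem_Ico] at hi
          apply ms_zero
          rw [size_block hi.1 (lt_of_lt_of_le hi.2 hn)]
          exact hs
        rw [h3, h4, add_zero]
        have h5 : p.K * j ^ 2 ≤ p.K * (j + 1) ^ 2 := Nat.mul_le_mul_left _ (Nat.pow_le_pow_left (by omega) 2)
        have h6 : 2 ^ (j + 1) ≤ 2 ^ p.s₀ := Nat.pow_le_pow_right (by norm_num) hs.le
        constructor <;> omega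
      · set r := p.K * (j + 1) with hr
        have hr0 : 0 < r := by
          have := p.hK
          positivity
        have hpow : 1 ≤ 2 ^ j := Nat.one_le_two_pow
        have h4 : U p (2 ^ j) n = (j + 1) * ((n - 1) / r - (2 ^ j - 1) / r) := by
          have h5 : U p (2 ^ j) n = ∑ i ∈ (Ico (2 ^ j) n).filter (fun i => r ∣ i), (j + 1) := by
            unfold U
            rw [sum_filter]
            refine sum_congr rfl fun i hi => ?_
            rw [mem_Ico] at hi
            have hsz := size_block hi.1 (lt_of_lt_of_le hi.2 hn)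
            unfold ms
            have hiff : Exc p i ↔ r ∣ i := by
              unfold Exc
              rw [hsz, hr]
              exact ⟨fun h => h.2, fun h => ⟨hs, h⟩⟩
            by_cases hE : Exc p i
            · rw [if_pos hE, if_pos (hiff.1 hE), hsz]
            · rw [if_neg hE, if_neg fun h => hE (hiff.2 h)]
          rw [h5, sum_const, smul_eq_mul, mul_comm]
          congr 1
          have h6 := Nat.Ioc_filter_dvd_card_eq_div (n - 1) r
          have h7 := Nat.Ioc_filter_dvd_card_eq_div (2 ^ j - 1) r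
          have h8 : (Ioc 0 (n - 1)).filter (fun i => r ∣ i) =
              (Ioc 0 (2 ^ j - 1)).filter (fun i => r ∣ i) ∪ (Ico (2 ^ j) n).filter (fun i => r ∣ i) := by
            ext i
            simp only [mem_filter, mem_Ioc, mem_union, mem_Ico]
            constructor
            · rintro ⟨⟨ha, hb⟩, hc⟩
              rcases lt_or_ge i (2 ^ j) with hlt | hge
              · exact Or.inl ⟨⟨ha, by omega⟩, hc⟩
              · exact Or.inr ⟨⟨hge, by omega⟩, hc⟩
            · rintro (⟨⟨ha, hb⟩, hc⟩ | ⟨⟨ha, hb⟩, hc⟩)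
              · exact ⟨⟨ha, by omega⟩, hc⟩
              · exact ⟨⟨by omega, by omega⟩, hc⟩
          have h9 : Disjoint ((Ioc 0 (2 ^ j - 1)).filter (fun i => r ∣ i))
              ((Ico (2 ^ j) n).filter (fun i => r ∣ i)) := by
            rw [disjoint_left]
            intro i hi hi'
            rw [mem_filter, mem_Ioc] at hi
            rw [mem_filter, mem_Ico] at hi'
            omega
          rw [h8, card_union_of_disjoint h9, h7] at h6
          omega
        have h5 := Nat.div_add_mod (n - 1) r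
        have h6 := Nat.mod_lt (n - 1) hr0
        have h7 := Nat.div_add_mod (2 ^ j - 1) r
        have h8 := Nat.mod_lt (2 ^ j - 1) hr0
        have h9 : (2 ^ j - 1) / r ≤ (n - 1) / r := Nat.div_le_div_right (by omega)
        have h10 : p.K * U p (2 ^ j) n = r * ((n - 1) / r) - r * ((2 ^ j - 1) / r) := by
          rw [h4, ← Nat.mul_sub, hr]
          ring
        have h11 : p.K * (j + 1) ^ 2 = p.K * j ^ 2 + p.K * j + r := by rw [hr]; ring
        rw [h3, Nat.mul_add, h10, h11]
        have h12 : r * ((2 ^ j - 1) / r) ≤ r * ((n - 1) / r) := Nat.mul_le_mul_left _ h9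
        constructor <;> omega

/-- the error in the mass -/
def err (n : ℕ) : ℕ := p.K * n.size ^ 2 + 2 ^ p.s₀

lemma U_upper {a c : ℕ} (h : a ≤ c) : p.K * U p a c ≤ (c - a) + 2 * err p c := by
  have h1 := (U_bounds p c.size c (Nat.lt_size_self c).le).1
  have h2 := (U_bounds p c.size a (h.trans (Nat.lt_size_self c).le)).2
  have h3 := U_add p (Nat.zero_le a) h
  rw [h3, Nat.mul_add] at h1
  have h4 : 0 < 2 ^ p.s₀ := by positivity
  unfold err
  omega

lemma U_lower {a c : ℕ} (h : a ≤ c) : c - a ≤ p.K * U p a c + 2 * err p c := by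
  have h1 := (U_bounds p c.size c (Nat.lt_size_self c).le).2
  have h2 := (U_bounds p c.size a (h.trans (Nat.lt_size_self c).le)).1
  have h3 := U_add p (Nat.zero_le a) h
  rw [h3, Nat.mul_add] at h1
  have h4 : 0 < 2 ^ p.s₀ := by positivity
  unfold err
  omega

end Pool.Agent.H607.Mix
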