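import Pool.Agent.H607.UnifDigits
import Pool.Agent.H607.Mix.BL
import Mathlib

/-!
# Products of independent random factors
-/

set_option autoImplicit false

namespace Pool.Agent.H607.Mix

open Finset Filter Topology MeasureTheory ProbabilityTheory
open Pool.Agent.W206.ND (ee)
open Pool.Agent.H607

variable (w : ℕ → ℕ)

/-- substitution of the coordinates in `J` -/
def sub (J : Finset ℕ) (u ω : ∀ i, Fin (w i)) : ∀ i, Fin (w i) := fun i => if i ∈ J then u i else ω i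

lemma sub_meas (J : Finset ℕ) :
    Measurable (fun x : (∀ i, Fin (w i)) × (∀ i, Fin (w i)) => sub w J x.1 x.2) := by
  rw [measurable_pi_iff]
  intro i
  unfold sub
  by_cases h : i ∈ J
  · simp only [h, if_true]
    exact (measurable_pi_apply i).comp measurable_fst
  · simp only [h, if_false]
    exact (measurable_pi_apply i).comp measurable_snd

variable [∀ i, NeZero (w i)]

lemma map_sub (J : Finset ℕ) :
    ((unif w).prod (unif w)).map (fun x => sub w J x.1 x.2) = unif w := by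
  classical
  unfold unif
  apply Measure.eq_infinitePi
  intro s t ht
  rw [Measure.map_apply (sub_meas w J) (MeasurableSet.pi s.countable_toSet fun i _ => ht i)]
  have h1 : (fun x : (∀ i, Fin (w i)) × (∀ i, Fin (w i)) => sub w J x.1 x.2) ⁻¹' (Set.pi s t) =
      (Set.pi ((s ∩ J : Finset ℕ) : Set ℕ) t) ×ˢ (Set.pi ((s \ J : Finset ℕ) : Set ℕ) t) := by
    ext ⟨u, ω⟩
    simp only [Set.mem_preimage, Set.mem_pi, Set.mem_prod, mem_coe, Finset.mem_inter, Finset.mem_sdiff, sub]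
    constructor
    · intro h
      constructor
      · rintro i ⟨hi, hJ⟩
        have := h i hi
        rwa [if_pos hJ] at this
      · rintro i ⟨hi, hJ⟩
        have := h i hi
        rwa [if_neg hJ] at this
    · rintro ⟨h2, h3⟩ i hi
      by_cases hJ : i ∈ J
      · rw [if_pos hJ]
        exact h2 i ⟨hi, hJ⟩
      · rw [if_neg hJ]
        exact h3 i ⟨hi, hJ⟩
  rw [h1, Measure.prod_prod, Measure.infinitePi_pi _ fun i _ => ht i,
    Measure.infinitePi_pi _ fun i _ => ht i]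
  rw [← prod_inter_mul_prod_sdiff s J]

lemma integral_sub (J : Finset ℕ) (F : (∀ i, Fin (w i)) → ℂ) (hF : Measurable F)
    (hF1 : ∀ ω, ‖F ω‖ ≤ 1) :
    ∫ ω, F ω ∂(unif w) = ∫ ω, ∫ u, F (sub w J u ω) ∂(unif w) ∂(unif w) := by
  have h1 : ∫ ω, F ω ∂(unif w) = ∫ x, F (sub w J x.1 x.2) ∂((unif w).prod (unif w)) := by
    conv_lhs => rw [← map_sub w J]
    rw [integral_map (sub_meas w J).aemeasurable hF.aestronglyMeasurable]
  have hint : Integrable (fun x : (∀ i, Fin (w i)) × (∀ i, Fin (w i)) => F (sub w J x.1 x.2))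
      ((unif w).prod (unif w)) :=
    Integrable.mono' (integrable_const (1 : ℝ)) (hF.comp (sub_meas w J)).aestronglyMeasurable
      (ae_of_all _ fun x => hF1 _)
  rw [h1, integral_prod_symm _ hint]

/-- the product of the factors with indices in `J` -/
def Q (f : ∀ i, Fin (w i) → ℕ) (J : Finset ℕ) (ω : ∀ i, Fin (w i)) : ℕ := ∏ i ∈ J, f i (ω i)

omit [∀ i, NeZero (w i)] in
lemma Q_meas (f : ∀ i, Fin (w i) → ℕ) (J : Finset ℕ) : Measurable (Q w f J) := by
  unfold Q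
  exact Finset.measurable_prod J fun i _ => (measurable_of_finite (f i)).comp (measurable_pi_apply i)

/-- the values of a product of factors which determines the factors have small probabilities -/
lemma prob_le (f : ∀ i, Fin (w i) → ℕ) (J : Finset ℕ)
    (hinj : ∀ ω ω' : (∀ i, Fin (w i)), Q w f J ω = Q w f J ω' → ∀ i ∈ J, ω i = ω' i) (a : ℕ) :
    (unif w).real {ω | Q w f J ω = a} ≤ ∏ i ∈ J, (1 / (w i : ℝ)) := by
  by_cases hne : ∃ ω₀ : (∀ i, Fin (w i)), Q w f J ω₀ = a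
  · obtain ⟨ω₀, h0⟩ := hne
    have h1 : {ω | Q w f J ω = a} ⊆ Set.pi (J : Set ℕ) (fun i => {ω₀ i}) := by
      intro ω hω i hi
      rw [Set.mem_singleton_iff]
      exact hinj ω ω₀ (by rw [h0]; exact hω) i hi
    have h2 : (unif w).real (Set.pi (J : Set ℕ) (fun i => {ω₀ i})) = ∏ i ∈ J, (1 / (w i : ℝ)) := by
      unfold unif Measure.real
      rw [Measure.infinitePi_pi _ fun i _ => measurableSet_singleton _, ENNReal.toReal_prod]
      refine prod_congr rfl fun i _ => ?_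
      rw [PMF.toMeasure_apply_singleton _ _ (measurableSet_singleton _), PMF.uniformOfFintype_apply,
        Fintype.card_fin, ENNReal.toReal_inv, ENNReal.toReal_natCast, one_div]
    rw [← h2]
    exact measureReal_mono h1 (measure_ne_top _ _)
  · have h1 : {ω | Q w f J ω = a} = ∅ := by
      ext ω
      simp only [Set.mem_ofPred_eq, Set.mem_empty_iff_false, iff_false]
      exact fun h => hne ⟨ω, h⟩
    rw [h1, measureReal_empty]
    exact prod_nonneg fun i _ => by positivity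

section

variable {Ω : Type*} [MeasurableSpace Ω] {μ : Measure Ω} [IsProbabilityMeasure μ]

lemma int_val {E : Type*} [NormedAddCommGroup E] [NormedSpace ℝ E] [CompleteSpace E]
    (X : Ω → ℕ) (hX : Measurable X) (B : ℕ) (h1 : ∀ ω, 1 ≤ X ω) (h2 : ∀ ω, X ω ≤ B) (g : ℕ → E) :
    ∫ ω, g (X ω) ∂μ = ∑ b ∈ Icc 1 B, μ.real {ω | X ω = b} • g b := by
  have h3 : ∀ ω, g (X ω) = ∑ b ∈ Icc 1 B, Set.indicator {ω | X ω = b} (fun _ => g b) ω := by
    intro ω
    rw [sum_eq_single (X ω)]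
    · simp
    · intro b _ hb
      rw [Set.indicator_of_notMem]
      intro h
      exact hb h.symm
    · intro h
      exact absurd (mem_Icc.2 ⟨h1 ω, h2 ω⟩) h
  simp only [h3]
  rw [integral_finsetSum]
  · refine sum_congr rfl fun b _ => ?_
    rw [integral_indicator_const]
    exact hX (measurableSet_singleton b)
  · intro b _
    exact (integrable_const _).indicator (hX (measurableSet_singleton b))

lemma sum_prob (X : Ω → ℕ) (hX : Measurable X) (B : ℕ) (h1 : ∀ ω, 1 ≤ X ω) (h2 : ∀ ω, X ω ≤ B) :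
    ∑ b ∈ Icc 1 B, μ.real {ω | X ω = b} = 1 := by
  have h3 := int_val (μ := μ) X hX B h1 h2 (fun _ => (1 : ℝ))
  simp only [smul_eq_mul, mul_one] at h3
  rw [← h3]
  simp

end

/-- the correlation bound -/
theorem corr (f : ∀ i, Fin (w i) → ℕ) (J₁ J₂ : Finset ℕ)
    (hf : ∀ i a, 1 ≤ f i a)
    (hinj₁ : ∀ ω ω' : (∀ i, Fin (w i)), Q w f J₁ ω = Q w f J₁ ω' → ∀ i ∈ J₁, ω i = ω' i)
    (hinj₂ : ∀ ω ω' : (∀ i, Fin (w i)), Q w f J₂ ω = Q w f J₂ ω' → ∀ i ∈ J₂, ω i = ω' i)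
    (A B G : ℕ) (hA : ∀ ω, Q w f J₁ ω ≤ A) (hB : ∀ ω, Q w f J₂ ω ≤ B)
    (F : (∀ i, Fin (w i)) → ℂ) (hF : Measurable F) (hF1 : ∀ ω, ‖F ω‖ ≤ 1)
    (ψ : (∀ i, Fin (w i)) → (∀ i, Fin (w i)) → ℂ) (hψ : ∀ u ω, ‖ψ u ω‖ ≤ 1)
    (φ : (∀ i, Fin (w i)) → ℝ)
    (hsub : ∀ ω u v, F (sub w J₁ u (sub w J₂ v ω)) = ψ u ω * ee (φ ω * Q w f J₁ u * Q w f J₂ v))
    (τ : ℝ) (hτ : 0 < τ)
    (hφ : ∀ ω, ∀ g : ℕ, 1 ≤ g → g ≤ G → ∀ z : ℤ, τ ≤ |g * φ ω - z|) :
    ‖∫ ω, F ω ∂(unif w)‖ ^ 2 ≤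
      (∏ i ∈ J₁, (1 / (w i : ℝ))) * (A * ((B / (G + 1) + 1 : ℕ) * ∏ i ∈ J₂, (1 / (w i : ℝ))) + 1 / τ) := by
  set bd := (∏ i ∈ J₁, (1 / (w i : ℝ))) *
    (A * ((B / (G + 1) + 1 : ℕ) * ∏ i ∈ J₂, (1 / (w i : ℝ))) + 1 / τ) with hbd
  have hbd0 : 0 ≤ bd := by positivity
  have hQ1 : ∀ J ω, 1 ≤ Q w f J ω := fun J ω => by
    unfold Q
    exact Finset.one_le_prod' fun i _ => hf i _
  set p : ℕ → ℝ := fun b => (unif w).real {ω | Q w f J₂ ω = b} with hp
  set r : ℕ → ℝ := fun a => (unif w).real {ω | Q w f J₁ ω = a} with hr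
  -- the inner integral
  have hsubm : ∀ J (ω : ∀ i, Fin (w i)), Measurable (fun u => sub w J u ω) := fun J ω =>
    (sub_meas w J).comp (measurable_id.prodMk measurable_const)
  have hsubm' : ∀ J (ω : ∀ i, Fin (w i)), Measurable (fun u => sub w J ω u) := fun J ω =>
    (sub_meas w J).comp (measurable_const.prodMk measurable_id)
  have hin : ∀ ω, ‖∫ u, ∫ v, F (sub w J₁ u (sub w J₂ v ω)) ∂(unif w) ∂(unif w)‖ ≤ Real.sqrt bd := by
    intro ω
    have h1 : ∀ u, ‖∫ v, F (sub w J₁ u (sub w J₂ v ω)) ∂(unif w)‖ ≤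
        ‖∑ b ∈ Icc 1 B, (p b : ℂ) * ee (φ ω * (Q w f J₁ u : ℕ) * b)‖ := by
      intro u
      have h2 : ∫ v, F (sub w J₁ u (sub w J₂ v ω)) ∂(unif w) =
          ψ u ω * ∑ b ∈ Icc 1 B, (p b : ℂ) * ee (φ ω * (Q w f J₁ u : ℕ) * b) := by
        simp only [hsub]
        rw [integral_const_mul]
        congr 1
        rw [int_val (μ := unif w) (Q w f J₂) (Q_meas w f J₂) B (hQ1 J₂) hB
          (fun b => ee (φ ω * (Q w f J₁ u : ℕ) * b))]
        refine sum_congr rfl fun b _ => ?_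
        rw [Complex.real_smul]
      rw [h2, norm_mul]
      calc ‖ψ u ω‖ * _ ≤ 1 * _ := mul_le_mul_of_nonneg_right (hψ u ω) (norm_nonneg _)
        _ = _ := one_mul _
    have h2 : ‖∫ u, ∫ v, F (sub w J₁ u (sub w J₂ v ω)) ∂(unif w) ∂(unif w)‖ ≤
        ∫ u, ‖∑ b ∈ Icc 1 B, (p b : ℂ) * ee (φ ω * (Q w f J₁ u : ℕ) * b)‖ ∂(unif w) := by
      refine (norm_integral_le_integral_norm _).trans ?_
      apply integral_mono_of_nonneg (ae_of_all _ fun u => norm_nonneg _) _ (ae_of_all _ h1)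
      refine Integrable.mono' (integrable_const (∑ b ∈ Icc 1 B, ‖(p b : ℂ)‖)) ?_ (ae_of_all _ fun u => ?_)
      · apply Measurable.aestronglyMeasurable
        apply Measurable.norm
        refine Finset.measurable_sum _ fun b _ => Measurable.const_mul ?_ _
        refine ee_continuous.measurable.comp (Measurable.mul_const (Measurable.const_mul ?_ _) _)
        exact measurable_from_nat.comp (Q_meas w f J₁)
      · rw [norm_norm]
        refine (norm_sum_le _ _).trans (sum_le_sum fun b _ => ?_)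
        rw [norm_mul, ee_norm, mul_one]
    refine h2.trans ?_
    rw [int_val (μ := unif w) (Q w f J₁) (Q_meas w f J₁) A (hQ1 J₁) hA
      (fun a : ℕ => ‖∑ b ∈ Icc 1 B, (p b : ℂ) * ee (φ ω * a * b)‖)]
    apply Real.le_sqrt_of_sq_le
    simp only [smul_eq_mul]
    exact bilin (φ ω) τ hτ G A B (hφ ω) p r (fun b => measureReal_nonneg) (fun a => measureReal_nonneg)
      _ _ (fun b => prob_le w f J₂ hinj₂ b) (fun a => prob_le w f J₁ hinj₁ a)
      (sum_prob _ (Q_meas w f J₂) B (hQ1 J₂) hB).le (sum_prob _ (Q_meas w f J₁) A (hQ1 J₁) hA).le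
  have h3 : ∫ ω, F ω ∂(unif w) =
      ∫ ω, ∫ u, ∫ v, F (sub w J₁ u (sub w J₂ v ω)) ∂(unif w) ∂(unif w) ∂(unif w) := by
    rw [integral_sub w J₁ F hF hF1]
    -- substitute also in the second group
    have h4 : ∀ u, Measurable (fun ω => F (sub w J₁ u ω)) := fun u => hF.comp (hsubm' J₁ u)
    have h5 : ∫ ω, ∫ u, F (sub w J₁ u ω) ∂(unif w) ∂(unif w) =
        ∫ u, ∫ ω, F (sub w J₁ u ω) ∂(unif w) ∂(unif w) := by
      apply integral_integral_swap
      exact Integrable.mono' (integrable_const (1 : ℝ))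
        ((hF.comp (sub_meas w J₁)).comp measurable_swap).aestronglyMeasurable
        (ae_of_all _ fun x => hF1 _)
    have hm3 : Measurable (fun x : (∀ i, Fin (w i)) × ((∀ i, Fin (w i)) × (∀ i, Fin (w i))) =>
        sub w J₁ x.1 (sub w J₂ x.2.1 x.2.2)) :=
      (sub_meas w J₁).comp (measurable_fst.prodMk ((sub_meas w J₂).comp measurable_snd))
    rw [h5]
    have h6 : ∀ u, ∫ ω, F (sub w J₁ u ω) ∂(unif w) =
        ∫ ω, ∫ v, F (sub w J₁ u (sub w J₂ v ω)) ∂(unif w) ∂(unif w) := fun u =>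
      integral_sub w J₂ _ (h4 u) fun ω => hF1 _
    simp only [h6]
    apply integral_integral_swap
    have hm4 : Measurable (fun x : ((∀ i, Fin (w i)) × (∀ i, Fin (w i))) × (∀ i, Fin (w i)) =>
        F (sub w J₁ x.1.1 (sub w J₂ x.2 x.1.2))) :=
      hF.comp (hm3.comp ((measurable_fst.comp measurable_fst).prodMk
        (measurable_snd.prodMk (measurable_snd.comp measurable_fst))))
    refine Integrable.mono' (integrable_const (1 : ℝ)) ?_ (ae_of_all _ fun x => ?_)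
    · exact (hm4.stronglyMeasurable.integral_prod_right').aestronglyMeasurable
    · refine (norm_integral_le_integral_norm _).trans ?_
      calc ∫ v, ‖F (sub w J₁ x.1 (sub w J₂ v x.2))‖ ∂(unif w) ≤ ∫ v, (1 : ℝ) ∂(unif w) := by
            apply integral_mono_of_nonneg (ae_of_all _ fun v => norm_nonneg _) (integrable_const _)
              (ae_of_all _ fun v => hF1 _)
        _ = 1 := by simp
  have h4 : ‖∫ ω, F ω ∂(unif w)‖ ≤ Real.sqrt bd := by
    rw [h3]
    refine (norm_integral_le_of_norm_le_const (ae_of_all _ hin)).trans ?_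
    simp
  calc ‖∫ ω, F ω ∂(unif w)‖ ^ 2 ≤ (Real.sqrt bd) ^ 2 := by gcongr
    _ = bd := Real.sq_sqrt hbd0

end Pool.Agent.H607.Mix
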